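import Pool.Agent.UH.Fk

set_option autoImplicit false
set_option maxRecDepth 100000
set_option maxHeartbeats 0

namespace Pool.Agent.UH.B55555

def X : Fk.CertF where
  nv := 15
  A := 0x2723251f282c1b2a1a2b221712291c0f1e2624150e210b190713200c061d180511160a040014100d0902030108
  A1 := 0x28242620002d1c2b1b2c0018132a1d101f2725160f220c1a0800210d071e1906121700050115110e0a03040009
  legs := [(1, 0), (19, 0), (40, 0), (34, 0), (10, 0)]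
  R := 0x0
  phi0 := 1
  ones := (.l [])
  pj := [0, 1048961, 2205467017601, 8602520092, 540]

def E : Emc where
  nv := 15
  A := 0x2723251f282c1b2a1a2b221712291c0f1e2624150e210b190713200c061d180511160a040014100d0902030108
  ln := [5, 5, 5, 5, 5, 5]
  par := [(0, 0), (0, 0), (0, 1), (0, 2), (0, 3), (0, 4)]
  cod := [[12, 15, 27, 36, 24], [17, 13, 3, 0, 6], [29, 16, 7, 18, 30], [38, 28, 31, 39, 42], [26, 37, 43, 33, 21], [14, 25, 22, 9, 5]]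
  rep := [(1, 3), (1, 2), (1, 4), (5, 3), (0, 0), (0, 1), (2, 3), (4, 4), (0, 4), (0, 2), (2, 4), (4, 3), (0, 3), (3, 3), (3, 4)]
  stp := [(0, 0, 0, 0, 0), (0, 0, 1, 0, 0), (0, 0, 2, 0, 0), (0, 0, 3, 0, 0), (0, 0, 4, 0, 0), (1, 1, 0, 0, 0), (2, 1, 1, 0, 0), (0, 1, 2, 0, 0), (0, 1, 3, 0, 0), (0, 1, 4, 0, 0), (1, 2, 0, 0, 1), (2, 2, 1, 0, 1), (3, 2, 2, 1, 4), (0, 2, 3, 0, 0), (0, 2, 4, 0, 0), (1, 3, 0, 0, 2), (2, 3, 1, 0, 2), (3, 3, 2, 2, 4), (0, 3, 3, 0, 0), (0, 3, 4, 0, 0), (1, 4, 0, 0, 3), (2, 4, 1, 0, 3), (3, 4, 2, 3, 4), (0, 4, 3, 0, 0), (0, 4, 4, 0, 0), (1, 5, 0, 0, 4), (2, 5, 1, 0, 4), (3, 5, 2, 4, 4), (0, 5, 3, 0, 0), (4, 5, 4, 1, 1)]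
  prs := [(0, 0, 1, 0, 0, 0, 0, 0), (0, 0, 2, 1, 0, 0, 0, 0), (0, 1, 2, 4, 1, 0, 0, 0), (0, 0, 3, 2, 0, 0, 0, 0), (1, 1, 3, 2, 1, 4, 4, 1), (0, 2, 3, 4, 1, 0, 0, 0), (0, 0, 4, 3, 0, 0, 0, 0), (1, 1, 4, 5, 4, 1, 1, 4), (1, 2, 4, 3, 1, 4, 4, 1), (0, 3, 4, 4, 1, 0, 0, 0), (0, 0, 5, 4, 0, 0, 0, 0), (0, 1, 5, 1, 4, 0, 0, 0), (1, 2, 5, 1, 4, 1, 1, 4), (1, 3, 5, 4, 1, 4, 4, 1), (0, 4, 5, 4, 1, 0, 0, 0)]
  exc := []

theorem c_emb : E.check = true := by decide +kernel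

theorem c_wf : wfA X.nv X.A X.legs = true := by decide +kernel

theorem c_a1 : alln (fun q => Nat.beq (fld X.A1 q) (cond (Nat.beq (fld X.A q) q) 0 (Nat.succ (fld X.A q)))) (Nat.mul 3 X.nv)
    = true := by decide +kernel

theorem c_bad : badT X.legs false false X.R = true := by decide +kernel

theorem c_rc : ringc X.nv X.A X.legs = true := by decide +kernel

theorem c_rj : ringj X.nv X.A X.legs X.pj = true := by decide +kernel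

theorem c_main : Fk.dfs X.nv X.phi0 X.A1 X.legs [] (len X.legs) 0 (.l X.R) 0 0 0
    (Fk.mkT X.A1 X.nv X.legs X.legs true (Fk.gn X.A1 X.nv 0 0 [])) X.ones true true = true := by decide +kernel

theorem c_trip : Fk.tripS (Nat.sub (len X.legs) 1) (Fk.ta X.ones) (Fk.tb X.ones) = true := by decide +kernel

theorem ok : X.Ok := ⟨c_wf, c_a1, c_bad, c_rc, c_rj, c_main, c_trip⟩

end Pool.Agent.UH.B55555
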