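import Pool.Agent.UH.Fk

set_option autoImplicit false
set_option maxRecDepth 100000
set_option maxHeartbeats 0

namespace Pool.Agent.UH.B55656

def X : Fk.CertF where
  nv := 17
  A := 0x27312f302c252e2b231f28321b2d1a2a171912291c0f1e2624210e22160b0713200c061d180511150a040014100d0902030108
  A1 := 0x280030312d262f00242000331c2e1b2b181a132a1d101f2725220f23000c0800210d071e1906121600050115110e0a03040009
  legs := [(1, 2187), (19, 729), (40, 243), (49, 81), (43, 27), (22, 9), (10, 3)]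
  R := 0x21801c71800000000000000000000000000000000000000000000000000000000000000000000050071800861801c008000000010101c500085105080985006b02a000000000000000000000000000000000000000000000000000000000000000000000000c00041c00060010800000051009110041410c20263c00cd0a80000000000000000000001c5183080caf1419c400000000506c138001035
  phi0 := 8
  ones := (.n (.n (.n (.n (.n (.l []) (.n (.n (.l []) (.l [0])) (.n (.l [5]) (.l [])))) (.n (.l []) (.n (.n (.l [3]) (.l [])) (.n (.l []) (.l [7]))))) (.n (.n (.l []) (.n (.n (.l [1]) (.l [])) (.n (.l []) (.l [5])))) (.n (.l []) (.n (.n (.l []) (.l [2])) (.n (.l [4]) (.l [])))))) (.n (.n (.l []) (.n (.n (.n (.l [0]) (.l [])) (.n (.l []) (.l [6]))) (.l []))) (.n (.n (.n (.n (.l [4]) (.l [])) (.n (.l []) (.l [2]))) (.n (.n (.l []) (.l [1])) (.n (.l [5]) (.l [])))) (.n (.n (.n (.l []) (.l [4])) (.n (.l [2]) (.l []))) (.n (.n (.l [2]) (.l [])) (.n (.l []) (.l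 [0, 2]))))))) (.n (.n (.n (.n (.n (.n (.l []) (.l [3])) (.n (.l [6]) (.l []))) (.n (.l []) (.n (.l []) (.l [5])))) (.n (.n (.l []) (.n (.l []) (.l [3]))) (.n (.n (.l []) (.l [0])) (.l [])))) (.n (.n (.n (.l []) (.n (.l []) (.l [3]))) (.n (.n (.l []) (.l [5])) (.l []))) (.n (.n (.n (.l []) (.l [7])) (.n (.l [2]) (.l []))) (.n (.l []) (.n (.l []) (.l [1, 7])))))) (.n (.n (.l []) (.n (.n (.n (.l []) (.l [7])) (.l [])) (.l []))) (.n (.n (.n (.l []) (.n (.l [1]) (.l []))) (.n (.l []) (.n (.l []) (.l [4])))) (.n (.l []) (.n (.n (.l []) (.l [0, 5])) (.l [])))))))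
  pj := [0, 1048961, 2205467017601, 1128655129674113, 4449596607004, 2099740, 540]

def E : Emc where
  nv := 17
  A := 0x27312f302c252e2b231f28321b2d1a2a171912291c0f1e2624210e22160b0713200c061d180511150a040014100d0902030108
  ln := [5, 5, 5, 6, 5, 6]
  par := [(0, 0), (0, 0), (0, 1), (0, 2), (0, 3), (0, 4)]
  cod := [[12, 15, 27, 36, 24], [17, 13, 3, 0, 6], [29, 16, 7, 18, 30], [38, 28, 31, 39, 48, 45], [26, 37, 46, 42, 33], [14, 25, 34, 21, 9, 5]]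
  rep := [(1, 3), (1, 2), (1, 4), (5, 4), (0, 0), (0, 1), (2, 3), (5, 3), (0, 4), (0, 2), (2, 4), (4, 4), (0, 3), (3, 3), (4, 3), (3, 5), (3, 4)]
  stp := [(0, 0, 0, 0, 0), (0, 0, 1, 0, 0), (0, 0, 2, 0, 0), (0, 0, 3, 0, 0), (0, 0, 4, 0, 0), (1, 1, 0, 0, 0), (2, 1, 1, 0, 0), (0, 1, 2, 0, 0), (0, 1, 3, 0, 0), (0, 1, 4, 0, 0), (1, 2, 0, 0, 1), (2, 2, 1, 0, 1), (3, 2, 2, 1, 4), (0, 2, 3, 0, 0), (0, 2, 4, 0, 0), (1, 3, 0, 0, 2), (2, 3, 1, 0, 2), (3, 3, 2, 2, 4), (0, 3, 3, 0, 0), (0, 3, 4, 0, 0), (0, 3, 5, 0, 0), (1, 4, 0, 0, 3), (2, 4, 1, 0, 3), (3, 4, 2, 3, 5), (0, 4, 3, 0, 0), (0, 4, 4, 0, 0), (1, 5, 0, 0, 4), (2, 5, 1, 0, 4), (3, 5, 2, 4, 4), (0, 5, 3, 0, 0), (0, 5, 4, 0, 0), (4, 5, 5, 1, 1)]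
  prs := [(0, 0, 1, 0, 0, 0, 0, 0), (0, 0, 2, 1, 0, 0, 0, 0), (0, 1, 2, 4, 1, 0, 0, 0), (0, 0, 3, 2, 0, 0, 0, 0), (1, 1, 3, 2, 1, 4, 4, 1), (0, 2, 3, 4, 1, 0, 0, 0), (0, 0, 4, 3, 0, 0, 0, 0), (1, 1, 4, 5, 5, 1, 1, 4), (1, 2, 4, 3, 1, 5, 4, 1), (0, 3, 4, 5, 1, 0, 0, 0), (0, 0, 5, 4, 0, 0, 0, 0), (0, 1, 5, 1, 5, 0, 0, 0), (1, 2, 5, 1, 4, 1, 1, 5), (1, 3, 5, 4, 1, 4, 5, 1), (0, 4, 5, 4, 1, 0, 0, 0)]
  exc := []

theorem c_emb : E.check = true := by decide +kernel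

theorem c_wf : wfA X.nv X.A X.legs = true := by decide +kernel

theorem c_a1 : alln (fun q => Nat.beq (fld X.A1 q) (cond (Nat.beq (fld X.A q) q) 0 (Nat.succ (fld X.A q)))) (Nat.mul 3 X.nv)
    = true := by decide +kernel

theorem c_bad : badT X.legs false false X.R = true := by decide +kernel

theorem c_rc : ringc X.nv X.A X.legs = true := by decide +kernel

theorem c_rj : ringj X.nv X.A X.legs X.pj = true := by decide +kernel

theorem c_main : Fk.dfs X.nv X.phi0 X.A1 X.legs [] (len X.legs) 0 (.l X.R) 0 0 0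
    (Fk.mkT X.A1 X.nv X.legs X.legs true (Fk.gn X.A1 X.nv 0 0 [])) X.ones true true = true := by decide +kernel

theorem c_trip : Fk.tripS (Nat.sub (len X.legs) 1) (Fk.ta X.ones) (Fk.tb X.ones) = true := by decide +kernel

theorem ok : X.Ok := ⟨c_wf, c_a1, c_bad, c_rc, c_rj, c_main, c_trip⟩

end Pool.Agent.UH.B55656
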