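import Pool.Agent.UH.Fk

set_option autoImplicit false
set_option maxRecDepth 100000
set_option maxHeartbeats 0

namespace Pool.Agent.UH.B55666

def X : Fk.CertF where
  nv := 18
  A := 0x2e342c27312f303525332b231f28321b2d1a2a171912291c0f1e2624210e22160b0713200c061d180511150a040014100d0902030108
  A1 := 0x2f002d2800303136263400242000331c2e1b2b181a132a1d101f2725220f23000c0800210d071e1906121600050115110e0a03040009
  legs := [(1, 8748), (19, 2916), (40, 972), (49, 324), (52, 108), (43, 36), (22, 12), (10, 4)]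
  R := 0xa000000000006030f0c8000000000010c0109f0000700700000000000000000000000000000000000000000000000000000000000000000000000000000000000000000000000000000000000000000000000000000000000000000000000000000000000000000000000000000000000000000000000000000000000000000000000000000000000000000000000000000000000000000000000000000000000000400000000000a0e000c80000000000e0e0d06f00008f0880000000f0000000000000c030c8000000000000000000000000000060c0106800c00000f0992022d00000000000f0605090000035023020e0f0f8203000d0a0ae80cc200000100e90e100ba200cd77080f0000000000000000000000000000000000000000000000000000000000000000000000000000000000000000000000000000000000000000000000000000000000000000000000000000000000000000000000000000000000000000000000000000000000000000000000000000000000000000000000000000000000000000000000000000000000000a00000000000d070d0f300000000009070c003000061016000000060000000000020f0e09800000000000000000000000000008060b05c40f0000080cbb0eb80000000000010c0b0ff0000620e50107010b4f000007070ef200cf000009f0ae0b0f0774003b310c0e0000000000000000000000000000000000000000000000000000000000000000000000000000000000000000000805080240000e009101010e08f40100080b0c9e08b9000003b0d7050101e400fa41080e0000000000000000000000000000000d50c501360e460039a4030400000000002b110501000b03070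
  phi0 := 16
  ones := (.n (.n (.n (.n (.n (.n (.l []) (.n (.n (.l []) (.l [12])) (.l []))) (.n (.n (.l []) (.n (.l [2]) (.l []))) (.l []))) (.n (.n (.l []) (.n (.n (.l [14]) (.l [])) (.n (.l []) (.l [13])))) (.n (.l []) (.n (.l []) (.n (.l [8]) (.l [])))))) (.n (.n (.l []) (.n (.n (.n (.l [9]) (.l [])) (.n (.l []) (.l [5]))) (.l []))) (.n (.n (.l []) (.n (.n (.l []) (.l [1])) (.l []))) (.n (.n (.l []) (.n (.l [13]) (.l []))) (.l []))))) (.n (.n (.l []) (.n (.n (.n (.n (.l [1]) (.l [])) (.n (.l []) (.l [14]))) (.l [])) (.n (.l []) (.n (.n (.l [1]) (.l [])) (.n (.l []) (.l [9])))))) (.n (.n (.n (.n (.n (.l [8]) (.l [])) (.n (.l []) (.l [0]))) (.l [])) (.n (.n (.n (.l []) (.l [14])) (.n (.l [5]) (.l []))) (.n (.n (.l [15]) (.l [])) (.n (.l []) (.l [7, 8]))))) (.n (.n (.n (.n (.l []) (.l [1])) (.n (.l [0]) (.l []))) (.n (.l []) (.n (.l []) (.l [2, 4])))) (.n (.n (.n (.l [4]) (.l [])) (.n (.l []) (.l [12]))) (.n (.n (.l []) (.l [6])) (.n (.l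 [7, 14]) (.l [])))))))) (.n (.n (.n (.n (.n (.n (.n (.l []) (.l [15])) (.n (.l [9]) (.l []))) (.n (.l []) (.n (.l []) (.l [11])))) (.n (.l []) (.n (.n (.l []) (.l [8])) (.n (.l [14]) (.l []))))) (.n (.n (.n (.l []) (.n (.l []) (.l [9]))) (.n (.n (.l []) (.l [0])) (.l []))) (.n (.l []) (.n (.l []) (.n (.l []) (.l [14])))))) (.n (.n (.n (.n (.l []) (.n (.l []) (.l [11]))) (.n (.n (.l []) (.l [1])) (.l []))) (.n (.l []) (.n (.l []) (.n (.l []) (.l [11]))))) (.n (.n (.n (.n (.l []) (.l [11])) (.n (.l [13]) (.l []))) (.n (.l []) (.n (.l []) (.l [15])))) (.n (.n (.l []) (.n (.l []) (.l [10, 15]))) (.n (.n (.l []) (.l [3, 12])) (.n (.l [10]) (.l []))))))) (.n (.n (.n (.n (.l []) (.n (.n (.l []) (.l [11])) (.l []))) (.n (.n (.n (.l []) (.l [2])) (.l [])) (.l []))) (.n (.n (.n (.n (.l []) (.l [6])) (.l [])) (.l [])) (.n (.l []) (.n (.n (.l []) (.l [1, 7])) (.l []))))) (.n (.n (.n (.n (.l []) (.n (.l [3]) (.l []))) (.n (.n (.l [5]) (.l [])) (.n (.l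 []) (.l [13])))) (.n (.n (.n (.l [1]) (.l [])) (.n (.l []) (.l [1, 2]))) (.n (.l []) (.n (.l [4, 8]) (.l []))))) (.n (.n (.l []) (.n (.n (.l []) (.l [4, 14])) (.l []))) (.n (.n (.n (.l []) (.l [6, 11])) (.l [])) (.l [])))))))
  pj := [0, 1048961, 2205467017601, 1128655129674113, 9113165359055169, 4449596607004, 2099740, 540]

def E : Emc where
  nv := 18
  A := 0x2e342c27312f303525332b231f28321b2d1a2a171912291c0f1e2624210e22160b0713200c061d180511150a040014100d0902030108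
  ln := [5, 5, 5, 6, 6, 6]
  par := [(0, 0), (0, 0), (0, 1), (0, 2), (0, 3), (0, 4)]
  cod := [[12, 15, 27, 36, 24], [17, 13, 3, 0, 6], [29, 16, 7, 18, 30], [38, 28, 31, 39, 48, 45], [26, 37, 46, 51, 42, 33], [14, 25, 34, 21, 9, 5]]
  rep := [(1, 3), (1, 2), (1, 4), (5, 4), (0, 0), (0, 1), (2, 3), (5, 3), (0, 4), (0, 2), (2, 4), (4, 5), (0, 3), (3, 3), (4, 4), (3, 5), (3, 4), (4, 3)]
  stp := [(0, 0, 0, 0, 0), (0, 0, 1, 0, 0), (0, 0, 2, 0, 0), (0, 0, 3, 0, 0), (0, 0, 4, 0, 0), (1, 1, 0, 0, 0), (2, 1, 1, 0, 0), (0, 1, 2, 0, 0), (0, 1, 3, 0, 0), (0, 1, 4, 0, 0), (1, 2, 0, 0, 1), (2, 2, 1, 0, 1), (3, 2, 2, 1, 4), (0, 2, 3, 0, 0), (0, 2, 4, 0, 0), (1, 3, 0, 0, 2), (2, 3, 1, 0, 2), (3, 3, 2, 2, 4), (0, 3, 3, 0, 0), (0, 3, 4, 0, 0), (0, 3, 5, 0, 0), (1, 4, 0, 0, 3), (2, 4, 1, 0, 3), (3, 4, 2, 3, 5), (0, 4, 3, 0, 0), (0, 4, 4, 0, 0), (0, 4, 5, 0, 0), (1, 5, 0, 0, 4), (2, 5, 1, 0, 4), (3, 5, 2, 4, 5), (0, 5, 3, 0, 0), (0, 5, 4, 0, 0), (4, 5, 5,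 1, 1)]
  prs := [(0, 0, 1, 0, 0, 0, 0, 0), (0, 0, 2, 1, 0, 0, 0, 0), (0, 1, 2, 4, 1, 0, 0, 0), (0, 0, 3, 2, 0, 0, 0, 0), (1, 1, 3, 2, 1, 4, 4, 1), (0, 2, 3, 4, 1, 0, 0, 0), (0, 0, 4, 3, 0, 0, 0, 0), (1, 1, 4, 5, 5, 1, 1, 5), (1, 2, 4, 3, 1, 5, 4, 1), (0, 3, 4, 5, 1, 0, 0, 0), (0, 0, 5, 4, 0, 0, 0, 0), (0, 1, 5, 1, 5, 0, 0, 0), (1, 2, 5, 1, 4, 1, 1, 5), (1, 3, 5, 4, 1, 5, 5, 1), (0, 4, 5, 5, 1, 0, 0, 0)]
  exc := []

theorem c_emb : E.check = true := by decide +kernel

theorem c_wf : wfA X.nv X.A X.legs = true := by decide +kernel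

theorem c_a1 : alln (fun q => Nat.beq (fld X.A1 q) (cond (Nat.beq (fld X.A q) q) 0 (Nat.succ (fld X.A q)))) (Nat.mul 3 X.nv)
    = true := by decide +kernel

theorem c_bad : badT X.legs false false X.R = true := by decide +kernel

theorem c_rc : ringc X.nv X.A X.legs = true := by decide +kernel

theorem c_rj : ringj X.nv X.A X.legs X.pj = true := by decide +kernel

theorem c_main : Fk.dfs X.nv X.phi0 X.A1 X.legs [] (len X.legs) 0 (.l X.R) 0 0 0
    (Fk.mkT X.A1 X.nv X.legs X.legs true (Fk.gn X.A1 X.nv 0 0 [])) X.ones true true = true := by decide +kernel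

theorem c_trip : Fk.tripS (Nat.sub (len X.legs) 1) (Fk.ta X.ones) (Fk.tb X.ones) = true := by decide +kernel

theorem ok : X.Ok := ⟨c_wf, c_a1, c_bad, c_rc, c_rj, c_main, c_trip⟩

end Pool.Agent.UH.B55666
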