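import Pool.Agent.UH.Fk

set_option autoImplicit false
set_option maxRecDepth 100000
set_option maxHeartbeats 0

namespace Pool.Agent.UH.B56566

def X : Fk.CertF where
  nv := 18
  A := 0x2e342c28312f303525332b231e321c1b2d1a2a1719121f290f272624210e22160b0713200c061d180511150a040014100d0902030108
  A1 := 0x2f002d2900303136263400241f331d1c2e1b2b181a13002a10282725220f23000c0800210d071e1906121600050115110e0a03040009
  legs := [(1, 13122), (19, 4374), (31, 1458), (49, 486), (52, 162), (43, 54), (22, 18), (10, 6)]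
  R := 0x200000000000000000d00480ac0ba8000000000000000f809800c05f20000002940144c00000000000000000000000000000000000000000000000000000000000000000000000000000000000000000000000000000000000000000000000000000000000000000000000000000000000000000000000000000000000000000000000000000000000000000000000000000000000000000000000000000000000000000000000000000000000000000000000000000000000000000000000000000000000000000000000000000000000000000000000000000000000000000000000000000000000000000000000000000007c000000000000000078060044029e000000000000000480300c4001600000086d028980000000000fc0000000000000000040a40fc045a0000000000000000000000000000000000000000005c0a00bc01067008c000000058009f4c0298900000000000000000380bc06c0147000000571006e00880800e80b4ba80f400001c0e8030b600911e0000000084101970030ebc09c5840033c915806c0c00000000000000000000000000000000000000000000000000000000000000000000000000000000000000000000000000000000000000000000000000000000000000000000000000000000000000000000000000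0000000000000000000000000000000000000000000000000000000000000000000000000000000000000000000000000000000000000000000000000000000000000000000000000000000000000000000000000000000000000000000000000000000000000000000000000000000000000000000000000000007c0000000000000000380a00000a840000000000000007c0840ec0f16000000c7d01fd800000000008400000000000000006400409407e8000000000000000000000000000000000000000000900740c804f4900ec0000dc0d009a5f00de9800000000000000000400880fc083500000019a0090001c0440f809f9bc08800000405004c0c005acf80000000bc40378c011404043f14003ff718c0840dc00000000000000000000000000000000000000000000000000000000000000000000000000000000000000000000000000000000000000000000000000000000000000008009805400f2000000d04024200b80240880d72580080000800cc0e2b9403785c0000000ba602f480be3dc0f5d18000068e1c0d80880000000000000000000000000000000000000000000000c9b03bc804ab24065838002761c7402801000000000000000368a0840f40e00000540d407c0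
  phi0 := 64
  ones := (.n (.n (.n (.n (.n (.n (.l []) (.n (.n (.l []) (.l [58])) (.l []))) (.n (.n (.l []) (.n (.l [12]) (.l []))) (.l []))) (.n (.n (.l []) (.n (.n (.l [1]) (.l [])) (.n (.l []) (.l [61])))) (.n (.n (.n (.l [61]) (.l [])) (.n (.l []) (.l [27]))) (.n (.l []) (.n (.l [36]) (.l [])))))) (.n (.n (.l []) (.n (.n (.l []) (.n (.l []) (.l [19]))) (.n (.n (.l []) (.l [1])) (.l [])))) (.n (.n (.n (.n (.l [56]) (.l [])) (.n (.l []) (.l [30]))) (.n (.n (.l []) (.l [2])) (.l []))) (.n (.l []) (.n (.n (.l [31]) (.l [])) (.n (.l []) (.l [15, 40]))))))) (.n (.n (.n (.l []) (.n (.n (.l []) (.n (.l []) (.l [9]))) (.n (.n (.l []) (.l [38])) (.l [])))) (.n (.n (.n (.n (.l [38]) (.l [])) (.n (.l []) (.l [25]))) (.n (.n (.l []) (.l [48])) (.l []))) (.n (.n (.n (.l []) (.l [59])) (.n (.l [48]) (.l []))) (.n (.n (.l [63]) (.l [])) (.n (.l []) (.l [47])))))) (.n (.n (.n (.l []) (.n (.n (.l []) (.l [9])) (.l []))) (.n (.n (.l []) (.n (.l [63]) (.l []))) (.l []))) (.n (.n (.n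 (.n (.l []) (.l [21])) (.n (.l [17]) (.l []))) (.n (.n (.l [54]) (.l [])) (.n (.l []) (.l [4])))) (.n (.n (.n (.l [3]) (.l [])) (.n (.l []) (.l [36, 43]))) (.n (.n (.l []) (.l [2, 6, 52])) (.n (.l [5, 16]) (.l [])))))))) (.n (.n (.n (.n (.n (.n (.n (.l []) (.l [60])) (.n (.l [12]) (.l []))) (.n (.l []) (.n (.l []) (.l [5])))) (.n (.l []) (.n (.n (.l []) (.l [11])) (.n (.l [28]) (.l []))))) (.l [])) (.n (.n (.n (.n (.n (.l [37]) (.l [])) (.n (.l []) (.l [22]))) (.n (.n (.l []) (.l [13])) (.l []))) (.n (.n (.n (.l []) (.l [49])) (.n (.l [54]) (.l []))) (.n (.n (.l [39]) (.l [])) (.n (.l []) (.l [37]))))) (.n (.n (.n (.n (.l []) (.l [17])) (.n (.l [37]) (.l []))) (.n (.l []) (.n (.l []) (.l [42, 46])))) (.n (.l []) (.n (.n (.l []) (.l [15, 25])) (.n (.l [16, 40]) (.l []))))))) (.n (.n (.n (.n (.n (.n (.l [1]) (.l [])) (.n (.l []) (.l [49]))) (.l [])) (.n (.n (.l []) (.n (.l [5]) (.l []))) (.n (.n (.l [26]) (.l [])) (.n (.l []) (.l [2, 58]))))) (.n (.n (.l []) (.n (.n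 (.l [57]) (.l [])) (.n (.l []) (.l [17, 23])))) (.n (.n (.n (.l [8]) (.l [])) (.n (.l []) (.l [45, 58]))) (.n (.l []) (.n (.l [22, 28]) (.l [])))))) (.n (.n (.n (.n (.n (.l []) (.l [42])) (.n (.l [19]) (.l []))) (.n (.n (.l [9]) (.l [])) (.n (.l []) (.l [12, 49])))) (.n (.n (.n (.l [31]) (.l [])) (.n (.l []) (.l [16, 41, 51]))) (.n (.n (.l []) (.l [19, 21])) (.n (.l [13, 37]) (.l []))))) (.n (.n (.n (.n (.l [35]) (.l [])) (.n (.l []) (.l [20, 33, 57]))) (.n (.n (.l []) (.l [0, 2])) (.l []))) (.n (.n (.n (.l []) (.l [17, 41])) (.n (.l [52, 53]) (.l []))) (.n (.n (.l [13, 37, 63]) (.l [])) (.n (.l []) (.l [11, 28, 48, 55, 59])))))))))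
  pj := [0, 1048961, 4296278401, 1127549979689281, 9113165359055169, 4449596607004, 2099740, 540]

def E : Emc where
  nv := 18
  A := 0x2e342c28312f303525332b231e321c1b2d1a2a1719121f290f272624210e22160b0713200c061d180511150a040014100d0902030108
  ln := [5, 5, 6, 5, 6, 6]
  par := [(0, 0), (0, 0), (0, 1), (0, 2), (0, 3), (0, 4)]
  cod := [[12, 15, 27, 36, 24], [17, 13, 3, 0, 6], [29, 16, 7, 18, 30, 39], [38, 28, 40, 48, 45], [26, 37, 46, 51, 42, 33], [14, 25, 34, 21, 9, 5]]
  rep := [(1, 3), (1, 2), (1, 4), (5, 4), (0, 0), (0, 1), (2, 3), (5, 3), (0, 4), (0, 2), (2, 4), (4, 5), (0, 3), (2, 5), (4, 4), (3, 4), (3, 3), (4, 3)]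
  stp := [(0, 0, 0, 0, 0), (0, 0, 1, 0, 0), (0, 0, 2, 0, 0), (0, 0, 3, 0, 0), (0, 0, 4, 0, 0), (1, 1, 0, 0, 0), (2, 1, 1, 0, 0), (0, 1, 2, 0, 0), (0, 1, 3, 0, 0), (0, 1, 4, 0, 0), (1, 2, 0, 0, 1), (2, 2, 1, 0, 1), (3, 2, 2, 1, 4), (0, 2, 3, 0, 0), (0, 2, 4, 0, 0), (0, 2, 5, 0, 0), (1, 3, 0, 0, 2), (2, 3, 1, 0, 2), (3, 3, 2, 2, 5), (0, 3, 3, 0, 0), (0, 3, 4, 0, 0), (1, 4, 0, 0, 3), (2, 4, 1, 0, 3), (3, 4, 2, 3, 4), (0, 4, 3, 0, 0), (0, 4, 4, 0, 0), (0, 4, 5, 0, 0), (1, 5, 0, 0, 4), (2, 5, 1, 0, 4), (3, 5, 2, 4, 5), (0, 5, 3, 0, 0), (0, 5, 4, 0, 0), (4, 5, 5, 1, 1)]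
  prs := [(0, 0, 1, 0, 0, 0, 0, 0), (0, 0, 2, 1, 0, 0, 0, 0), (0, 1, 2, 4, 1, 0, 0, 0), (0, 0, 3, 2, 0, 0, 0, 0), (1, 1, 3, 2, 1, 5, 4, 1), (0, 2, 3, 5, 1, 0, 0, 0), (0, 0, 4, 3, 0, 0, 0, 0), (1, 1, 4, 5, 5, 1, 1, 5), (1, 2, 4, 3, 1, 4, 5, 1), (0, 3, 4, 4, 1, 0, 0, 0), (0, 0, 5, 4, 0, 0, 0, 0), (0, 1, 5, 1, 5, 0, 0, 0), (1, 2, 5, 1, 4, 1, 1, 5), (1, 3, 5, 4, 1, 5, 4, 1), (0, 4, 5, 5, 1, 0, 0, 0)]
  exc := []

theorem c_emb : E.check = true := by decide +kernel

theorem c_wf : wfA X.nv X.A X.legs = true := by decide +kernel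

theorem c_a1 : alln (fun q => Nat.beq (fld X.A1 q) (cond (Nat.beq (fld X.A q) q) 0 (Nat.succ (fld X.A q)))) (Nat.mul 3 X.nv)
    = true := by decide +kernel

theorem c_bad : badT X.legs false false X.R = true := by decide +kernel

theorem c_rc : ringc X.nv X.A X.legs = true := by decide +kernel

theorem c_rj : ringj X.nv X.A X.legs X.pj = true := by decide +kernel

theorem c_main : Fk.dfs X.nv X.phi0 X.A1 X.legs [] (len X.legs) 0 (.l X.R) 0 0 0
    (Fk.mkT X.A1 X.nv X.legs X.legs true (Fk.gn X.A1 X.nv 0 0 [])) X.ones true true = true := by decide +kernel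

theorem c_trip : Fk.tripS (Nat.sub (len X.legs) 1) (Fk.ta X.ones) (Fk.tb X.ones) = true := by decide +kernel

theorem ok : X.Ok := ⟨c_wf, c_a1, c_bad, c_rc, c_rj, c_main, c_trip⟩

end Pool.Agent.UH.B56566
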