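import Pool.Agent.UH.Fk

set_option autoImplicit false
set_option maxRecDepth 100000
set_option maxHeartbeats 0

namespace Pool.Agent.UH.Q465w6

def X : Fk.CertF where
  nv := 15
  A := 0x272b2621282c2a251f1c22291b241a1323201e171019160e091d07061805150d04010a140012110f0c02030b08
  A1 := 0x28002722002d2b00201d002a1c251b1424211f18111a000f0a1e08071906160005020015011312100d03040c09
  legs := [(10, 2916), (34, 972), (40, 324), (43, 108), (37, 36), (22, 12), (13, 4)]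
  R := 0x2000f0000080205000000000000000000000000000000000000000000000000000000000000000000000000000000000000000000000b000503000607030003000603000000000003001843000f01070c0600475c070625042000000000000000000000000000000000000000000000000000000000000000000000000000000000000000000001000203000109090004000200000000000e0700cc4e00090e0c0708002b0402044108400000000000000000000000000000070e0c060300dea60a0c1a0310000000000907b908b00002d01c
  phi0 := 0
  ones := (.n (.n (.n (.n (.n (.n (.n (.l [0]) (.l [])) (.n (.l []) (.l [13]))) (.n (.l []) (.n (.l [10]) (.l [])))) (.n (.l []) (.n (.n (.l [8]) (.l [])) (.n (.l []) (.l [11, 12]))))) (.n (.l []) (.n (.n (.n (.l [1]) (.l [])) (.n (.l []) (.l [1, 2]))) (.n (.l []) (.n (.l [3]) (.l [])))))) (.n (.n (.n (.l []) (.n (.l []) (.n (.l []) (.l [9])))) (.l [])) (.n (.n (.n (.n (.l [13]) (.l [])) (.n (.l []) (.l [9, 14]))) (.n (.l []) (.n (.l [0]) (.l [])))) (.n (.l []) (.n (.n (.l [13])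 (.l [])) (.n (.l []) (.l [10, 13, 14]))))))) (.n (.n (.n (.n (.n (.n (.l []) (.l [7])) (.l [])) (.n (.l []) (.n (.l []) (.l [14])))) (.n (.l []) (.n (.n (.l []) (.l [6, 8])) (.n (.l [11]) (.l []))))) (.n (.l []) (.n (.n (.n (.l []) (.l [2, 12])) (.n (.l [8]) (.l []))) (.n (.l []) (.n (.l []) (.l [4])))))) (.n (.n (.n (.n (.n (.l [15]) (.l [])) (.n (.l []) (.l [12]))) (.n (.n (.l []) (.l [0])) (.l []))) (.n (.l []) (.n (.n (.l [0]) (.l [])) (.n (.l []) (.l [3]))))) (.n (.n (.n (.n (.l []) (.l [4, 14])) (.n (.l [13]) (.l []))) (.n (.l []) (.n (.l []) (.l [3])))) (.n (.n (.n (.l [6]) (.l [])) (.n (.l []) (.l [5]))) (.n (.n (.l []) (.l [4, 14])) (.n (.l [4]) (.l []))))))))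
  pj := [2050, 35165831553, 2242779021697, 4744949203265, 72024785217, 2117660, 4124]

def E : Emc where
  nv := 15
  A := 0x272b2621282c2a251f1c22291b241a1323201e171019160e091d07061805150d04010a140012110f0c02030b08
  ln := [4, 4, 6, 5, 6]
  par := [(0, 0), (0, 1), (0, 2), (0, 3), (2, 3)]
  cod := [[3, 0, 6, 15], [8, 1, 9, 18], [17, 7, 19, 27, 30, 24], [5, 16, 25, 21, 12], [32, 28, 33, 39, 42, 36]]
  rep := [(0, 1), (0, 0), (0, 2), (1, 2), (3, 4), (0, 3), (1, 3), (3, 3), (2, 5), (2, 3), (2, 4), (4, 2), (4, 5), (4, 3), (4, 4)]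
  stp := [(0, 0, 0, 0, 0), (0, 0, 1, 0, 0), (0, 0, 2, 0, 0), (0, 0, 3, 0, 0), (1, 1, 0, 0, 1), (2, 1, 1, 0, 1), (0, 1, 2, 0, 0), (0, 1, 3, 0, 0), (1, 2, 0, 0, 2), (2, 2, 1, 0, 2), (3, 2, 2, 1, 3), (0, 2, 3, 0, 0), (0, 2, 4, 0, 0), (0, 2, 5, 0, 0), (1, 3, 0, 0, 3), (2, 3, 1, 0, 3), (3, 3, 2, 2, 5), (0, 3, 3, 0, 0), (0, 3, 4, 0, 0), (1, 4, 0, 2, 3), (2, 4, 1, 2, 3), (0, 4, 2, 0, 0), (0, 4, 3, 0, 0), (0, 4, 4, 0, 0), (0, 4, 5, 0, 0)]
  prs := [(0, 0, 1, 1, 0, 0, 0, 0), (0, 0, 2, 2, 0, 0, 0, 0), (0, 1, 2, 3, 1, 0, 0, 0), (0, 0, 3, 3, 0, 0, 0, 0), (1, 1, 3, 2, 1, 5, 3, 1), (0, 2, 3, 5, 1, 0, 0, 0), (1, 0, 4, 2, 0, 3, 2, 0), (1, 1, 4, 2, 1, 3, 3, 0), (0, 2, 4, 3, 0, 0, 0, 0), (1, 3, 4, 2, 5, 3, 1, 0)]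
  exc := []

theorem c_emb : E.check = true := by decide +kernel

theorem c_wf : wfA X.nv X.A X.legs = true := by decide +kernel

theorem c_a1 : alln (fun q => Nat.beq (fld X.A1 q) (cond (Nat.beq (fld X.A q) q) 0 (Nat.succ (fld X.A q)))) (Nat.mul 3 X.nv)
    = true := by decide +kernel

theorem c_bad : badT X.legs false false X.R = true := by decide +kernel

theorem c_rc : ringc X.nv X.A X.legs = true := by decide +kernel

theorem c_rj : ringj X.nv X.A X.legs X.pj = true := by decide +kernel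

theorem c_main : Fk.dfs X.nv X.phi0 X.A1 X.legs [] (len X.legs) 0 (.l X.R) 0 0 0
    (Fk.mkT X.A1 X.nv X.legs X.legs true (Fk.gn X.A1 X.nv 0 0 [])) X.ones true true = true := by decide +kernel

theorem c_trip : Fk.tripS (Nat.sub (len X.legs) 1) (Fk.ta X.ones) (Fk.tb X.ones) = true := by decide +kernel

theorem ok : X.Ok := ⟨c_wf, c_a1, c_bad, c_rc, c_rj, c_main, c_trip⟩

end Pool.Agent.UH.Q465w6
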