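import Pool.Agent.UH.Fk

set_option autoImplicit false
set_option maxRecDepth 100000
set_option maxHeartbeats 0

namespace Pool.Agent.UH.Q556

def X : Fk.CertF where
  nv := 12
  A := 0x1c221a131f1d1e231021190e091614152007061b05180d04010a170012110f0c02030b08
  A1 := 0x1d001b14001e1f241122000f0a0015162108071c06190005020018011312100d03040c09
  legs := [(10, 486), (22, 162), (31, 54), (34, 18), (25, 6), (13, 2)]
  R := 0x31c200808c0000000000000000000820202280000001f4cc0888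
  phi0 := 2
  ones := (.n (.n (.n (.n (.n (.n (.l [2]) (.l [])) (.n (.l []) (.l [0]))) (.n (.l []) (.n (.l [2]) (.l [])))) (.n (.l []) (.n (.n (.l [1]) (.l [])) (.n (.l []) (.l [0]))))) (.n (.n (.n (.n (.l []) (.l [0])) (.l [])) (.n (.n (.l [2]) (.l [])) (.n (.l []) (.l [0, 2])))) (.n (.n (.n (.l [0]) (.l [])) (.n (.l []) (.l [0, 2]))) (.n (.l []) (.n (.l [0]) (.l [])))))) (.n (.n (.n (.l []) (.n (.n (.l [3]) (.l [])) (.n (.l []) (.l [0])))) (.n (.n (.l []) (.n (.l []) (.l [2]))) (.n (.n (.l []) (.l [1])) (.n (.l [3]) (.l []))))) (.n (.n (.n (.n (.l [0]) (.l [])) (.n (.l []) (.l [0]))) (.n (.l []) (.n (.l [0]) (.l [])))) (.n (.l []) (.n (.n (.l [1, 3]) (.l [])) (.n (.l []) (.l [2])))))))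
  pj := [2050, 8391170, 4295754113, 34762588481, 16797724, 4124]

def E : Emc where
  nv := 12
  A := 0x1c221a131f1d1e231021190e091614152007061b05180d04010a170012110f0c02030b08
  ln := [4, 5, 5, 6]
  par := [(0, 0), (0, 1), (0, 2), (0, 3)]
  cod := [[3, 0, 6, 15], [8, 1, 9, 21, 18], [17, 7, 19, 30, 27], [5, 16, 28, 33, 24, 12]]
  rep := [(0, 1), (0, 0), (0, 2), (1, 2), (3, 5), (0, 3), (1, 4), (1, 3), (3, 4), (2, 4), (2, 3), (3, 3)]
  stp := [(0, 0, 0, 0, 0), (0, 0, 1, 0, 0), (0, 0, 2, 0, 0), (0, 0, 3, 0, 0), (1, 1, 0, 0, 1), (2, 1, 1, 0, 1), (0, 1, 2, 0, 0), (0, 1, 3, 0, 0), (0, 1, 4, 0, 0), (1, 2, 0, 0, 2), (2, 2, 1, 0, 2), (3, 2, 2, 1, 4), (0, 2, 3, 0, 0), (0, 2, 4, 0, 0), (1, 3, 0, 0, 3), (2, 3, 1, 0, 3), (3, 3, 2, 2, 4), (0, 3, 3, 0, 0), (0, 3, 4, 0, 0), (0, 3, 5, 0, 0)]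
  prs := [(0, 0, 1, 1, 0, 0, 0, 0), (0, 0, 2, 2, 0, 0, 0, 0), (0, 1, 2, 4, 1, 0, 0, 0), (0, 0, 3, 3, 0, 0, 0, 0), (1, 1, 3, 2, 1, 4, 4, 1), (0, 2, 3, 4, 1, 0, 0, 0)]
  exc := []

theorem c_emb : E.check = true := by decide +kernel

theorem c_wf : wfA X.nv X.A X.legs = true := by decide +kernel

theorem c_a1 : alln (fun q => Nat.beq (fld X.A1 q) (cond (Nat.beq (fld X.A q) q) 0 (Nat.succ (fld X.A q)))) (Nat.mul 3 X.nv)
    = true := by decide +kernel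

theorem c_bad : badT X.legs false false X.R = true := by decide +kernel

theorem c_rc : ringc X.nv X.A X.legs = true := by decide +kernel

theorem c_rj : ringj X.nv X.A X.legs X.pj = true := by decide +kernel

theorem c_main : Fk.dfs X.nv X.phi0 X.A1 X.legs [] (len X.legs) 0 (.l X.R) 0 0 0
    (Fk.mkT X.A1 X.nv X.legs X.legs true (Fk.gn X.A1 X.nv 0 0 [])) X.ones true true = true := by decide +kernel

theorem c_trip : Fk.tripS (Nat.sub (len X.legs) 1) (Fk.ta X.ones) (Fk.tb X.ones) = true := by decide +kernel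

theorem ok : X.Ok := ⟨c_wf, c_a1, c_bad, c_rc, c_rj, c_main, c_trip⟩

end Pool.Agent.UH.Q556
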