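import Pool.Agent.UH.Fk

set_option autoImplicit false
set_option maxRecDepth 100000
set_option maxHeartbeats 0

namespace Pool.Agent.UH.Q565w5

def X : Fk.CertF where
  nv := 15
  A := 0x242b292a28221f252c1e271d132623211a101c190e091614152007061b05180d04010a170012110f0c02030b08
  A1 := 0x25002a2b002320002d1f281e142724221b111d000f0a0015162108071c06190005020018011312100d03040c09
  legs := [(10, 3645), (22, 1215), (37, 405), (43, 135), (40, 45), (25, 15), (13, 5)]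
  R := 0x70000f000000700d02800000000000000000000000000000000000000000000000000000000000000000000000000000000000000000000000000000000000000000001f0000f02c000440306c00020000500b00000000000400c00342f6c000240f00c0906400d2229008048b010880000000000000000000000000000000000000000000000000000000000000000000000000000000000000000000000000000000000000000000c0006c17000050781b0001f0001b00000000000001e00c0054f580001203c1100c0e001193c80c028eb058e00000000000000000000000000000000000000c1a02809028007cdaf0340997c007000000000000050091303d00000100802f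
  phi0 := 12
  ones := (.n (.n (.n (.n (.n (.n (.n (.l [12]) (.l [])) (.n (.l []) (.l [2]))) (.n (.l []) (.n (.l [19]) (.l [])))) (.n (.l []) (.n (.n (.l [20]) (.l [])) (.n (.l []) (.l [3]))))) (.n (.n (.l []) (.n (.l []) (.n (.l []) (.l [13])))) (.n (.n (.n (.l [15]) (.l [])) (.n (.l []) (.l [19, 24]))) (.n (.l []) (.n (.l [18]) (.l [])))))) (.n (.n (.n (.n (.n (.l []) (.l [21])) (.n (.l [29]) (.l []))) (.l [])) (.n (.l []) (.n (.n (.l []) (.l [12])) (.n (.l [3, 30]) (.l []))))) (.n (.n (.n (.n (.l [1]) (.l [])) (.n (.l []) (.l [0, 10]))) (.n (.n (.l []) (.l [30])) (.n (.l [8]) (.l [])))) (.n (.n (.n (.l []) (.l [28])) (.n (.l [22, 24]) (.l []))) (.n (.n (.l [27]) (.l [])) (.n (.l []) (.l [9, 16, 26]))))))) (.n (.n (.n (.n (.n (.l []) (.n (.l [17]) (.l []))) (.n (.l []) (.n (.l []) (.l [18])))) (.n (.l []) (.n (.n (.l []) (.l [17])) (.n (.l [12]) (.l []))))) (.n (.n (.n (.l []) (.n (.l []) (.l [22]))) (.n (.l []) (.n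 (.l [6]) (.l [])))) (.n (.n (.n (.l []) (.l [25])) (.n (.l [3]) (.l []))) (.n (.l []) (.n (.l []) (.l [0, 10, 20])))))) (.n (.n (.n (.n (.n (.l [18]) (.l [])) (.n (.l []) (.l [25]))) (.n (.n (.l []) (.l [9])) (.n (.l [23, 29]) (.l [])))) (.n (.l []) (.n (.n (.l [9, 19]) (.l [])) (.n (.l []) (.l [16, 19, 24]))))) (.n (.n (.n (.n (.l []) (.l [25])) (.l [])) (.n (.n (.l [21]) (.l [])) (.n (.l []) (.l [19, 29])))) (.n (.n (.n (.l [9, 23]) (.l [])) (.n (.l []) (.l [0, 19, 28]))) (.n (.n (.l []) (.l [7, 31])) (.n (.l [3, 8, 9]) (.l []))))))))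
  pj := [2050, 8391170, 281321144705, 17942226665857, 576196903233, 16797724, 4124]

def E : Emc where
  nv := 15
  A := 0x242b292a28221f252c1e271d132623211a101c190e091614152007061b05180d04010a170012110f0c02030b08
  ln := [4, 5, 6, 5, 5]
  par := [(0, 0), (0, 1), (0, 2), (0, 3), (2, 3)]
  cod := [[3, 0, 6, 15], [8, 1, 9, 21, 18], [17, 7, 19, 30, 33, 27], [5, 16, 28, 24, 12], [35, 31, 36, 42, 39]]
  rep := [(0, 1), (0, 0), (0, 2), (1, 2), (3, 4), (0, 3), (1, 4), (1, 3), (3, 3), (2, 5), (2, 3), (2, 4), (4, 2), (4, 4), (4, 3)]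
  stp := [(0, 0, 0, 0, 0), (0, 0, 1, 0, 0), (0, 0, 2, 0, 0), (0, 0, 3, 0, 0), (1, 1, 0, 0, 1), (2, 1, 1, 0, 1), (0, 1, 2, 0, 0), (0, 1, 3, 0, 0), (0, 1, 4, 0, 0), (1, 2, 0, 0, 2), (2, 2, 1, 0, 2), (3, 2, 2, 1, 4), (0, 2, 3, 0, 0), (0, 2, 4, 0, 0), (0, 2, 5, 0, 0), (1, 3, 0, 0, 3), (2, 3, 1, 0, 3), (3, 3, 2, 2, 5), (0, 3, 3, 0, 0), (0, 3, 4, 0, 0), (1, 4, 0, 2, 3), (2, 4, 1, 2, 3), (0, 4, 2, 0, 0), (0, 4, 3, 0, 0), (0, 4, 4, 0, 0)]
  prs := [(0, 0, 1, 1, 0, 0, 0, 0), (0, 0, 2, 2, 0, 0, 0, 0), (0, 1, 2, 4, 1, 0, 0, 0), (0, 0, 3, 3, 0, 0, 0, 0), (1, 1, 3, 2, 1, 5, 4, 1), (0, 2, 3, 5, 1, 0, 0, 0), (1, 0, 4, 2, 0, 3, 2, 0), (1, 1, 4, 2, 1, 3, 4, 0), (0, 2, 4, 3, 0, 0, 0, 0), (1, 3, 4, 2, 5, 3, 1, 0)]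
  exc := []

theorem c_emb : E.check = true := by decide +kernel

theorem c_wf : wfA X.nv X.A X.legs = true := by decide +kernel

theorem c_a1 : alln (fun q => Nat.beq (fld X.A1 q) (cond (Nat.beq (fld X.A q) q) 0 (Nat.succ (fld X.A q)))) (Nat.mul 3 X.nv)
    = true := by decide +kernel

theorem c_bad : badT X.legs false false X.R = true := by decide +kernel

theorem c_rc : ringc X.nv X.A X.legs = true := by decide +kernel

theorem c_rj : ringj X.nv X.A X.legs X.pj = true := by decide +kernel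

theorem c_main : Fk.dfs X.nv X.phi0 X.A1 X.legs [] (len X.legs) 0 (.l X.R) 0 0 0
    (Fk.mkT X.A1 X.nv X.legs X.legs true (Fk.gn X.A1 X.nv 0 0 [])) X.ones true true = true := by decide +kernel

theorem c_trip : Fk.tripS (Nat.sub (len X.legs) 1) (Fk.ta X.ones) (Fk.tb X.ones) = true := by decide +kernel

theorem ok : X.Ok := ⟨c_wf, c_a1, c_bad, c_rc, c_rj, c_main, c_trip⟩

end Pool.Agent.UH.Q565w5
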