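import Pool.Agent.UH.Fk

set_option autoImplicit false
set_option maxRecDepth 100000
set_option maxHeartbeats 0

namespace Pool.Agent.UH.Q565w6

def X : Fk.CertF where
  nv := 16
  A := 0x2a2e29242b2f2d28221f252c1e271d132623211a101c190e091614152007061b05180d04010a170012110f0c02030b08
  A1 := 0x2b002a2500302e002320002d1f281e142724221b111d000f0a0015162108071c06190005020018011312100d03040c09
  legs := [(10, 13122), (22, 4374), (37, 1458), (43, 486), (46, 162), (40, 54), (25, 18), (13, 6)]
  R := 0x9000000000000000003c0440e80aac000000000000000e007c07007c000000074b022a80000000000000000000000000000000000000000000000000000000000000000000000000000000000000000000000000000000000000000000000000000000000000000000000000000000000000000000000000000000000000000000000000000000000000000000000000000000000000000000000000000000000000000000000000000000000000000000000000000000000000000000000000000000000000000000000000000000000000000000000000000000000000000000000000000000000000000000000000000000800000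000000000000b40f005c026d000000000000000600100a80580000000bdd039d00000000000f00000000000000000e40a805401c10000000000000000000000000000000000000000005c05002c03415c0b40000f00ec0678c8025e7000000000000000008c06c0dc0c81000000693038b009c0b00780b40000f8000074000009bd809c4d00000000a7b015780f86700f03e00038ade1408c0c80000000000000000000000000000000000000000000000000000000000000000000000000000000000000000000000000000000000000000000000000000000000000000000000000000000000000000000000000000000000000000000000000000000000000000000000000000000000000000000000000000000000000000000000000000000000000000000000000000000000000000000000000000000000000000000000000000000000000000000000000000000000000000000000000000000000000000000000000000000080000000000000000a00c80080dc9000000000000000b8034048033c000000160009180000000000340000000000000000ec0c40ac08180000000000000000000000000000000000000000000805806801111804800005c0cc00a2d40826bc0000000000000000bc0680a0096d00000074c012100bc0980d80e91880240000dc0840a051407f7c40000000d91035d8072bc00f11300027475c003001c0000000000000000000000000000000000000000000000000000000000000000000000000000000000000000000000000000000000000000000000000000000000000000980bc0740a5100000000901cd40f40a00fc0f18080b00000cc04406083c0d9cb40000000eb7002380cf2380c0c9000045d5a8004084000000000000000000000000000000000000000000000042b02ff80ad1e809ded800169b1e00cc0e4000000000000002d86f500040a00000800b80dc0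
  phi0 := 28
  ones := (.n (.n (.n (.n (.n (.n (.n (.n (.l [28]) (.l [])) (.n (.l []) (.l [50]))) (.n (.l []) (.n (.l [30]) (.l [])))) (.n (.l []) (.n (.n (.l [11]) (.l [])) (.n (.l []) (.l [17, 61]))))) (.n (.l []) (.n (.n (.n (.l [2]) (.l [])) (.n (.l []) (.l [19, 27]))) (.n (.l []) (.n (.l [61]) (.l [])))))) (.n (.n (.n (.l []) (.n (.l []) (.n (.l []) (.l [34])))) (.l [])) (.n (.n (.n (.n (.l [15]) (.l [])) (.n (.l []) (.l [57, 60]))) (.n (.l []) (.n (.l [59]) (.l [])))) (.n (.l []) (.n (.n (.l [37]) (.l [])) (.n (.l []) (.l [13, 14, 16]))))))) (.n (.n (.n (.n (.n (.n (.l []) (.l [40])) (.n (.l [16]) (.l []))) (.l [])) (.n (.l []) (.n (.n (.l []) (.l [27])) (.n (.l [8, 57]) (.l []))))) (.n (.l []) (.n (.n (.n (.l []) (.l [12])) (.n (.l [14, 45]) (.l []))) (.l [])))) (.n (.n (.n (.n (.n (.l [33]) (.l [])) (.n (.l []) (.l [12, 61]))) (.n (.n (.l []) (.l [44])) (.n (.l [49]) (.l [])))) (.n (.l []) (.n (.n (.l [0]) (.l [])) (.n (.l []) (.l [1, 48]))))) (.n (.n (.n (.n (.l []) (.l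 [51])) (.n (.l [9, 12]) (.l []))) (.l [])) (.n (.n (.n (.l [2]) (.l [])) (.n (.l []) (.l [10, 30, 47]))) (.n (.n (.l []) (.l [16, 26])) (.n (.l [31, 41, 47]) (.l [])))))))) (.n (.n (.n (.n (.n (.n (.l []) (.n (.l [50]) (.l []))) (.n (.l []) (.n (.l []) (.l [10])))) (.n (.l []) (.n (.n (.l []) (.l [39])) (.n (.l [25]) (.l []))))) (.n (.l []) (.n (.n (.n (.l []) (.l [26])) (.n (.l [38]) (.l []))) (.n (.l []) (.n (.l []) (.l [52])))))) (.n (.n (.n (.n (.l []) (.n (.l []) (.l [19]))) (.n (.l []) (.n (.l [26]) (.l [])))) (.n (.l []) (.n (.l []) (.n (.l []) (.l [26, 50]))))) (.n (.n (.n (.n (.l []) (.l [23])) (.n (.l [7]) (.l []))) (.n (.l []) (.n (.l []) (.l [47])))) (.n (.n (.l []) (.n (.l []) (.l [45, 61]))) (.n (.n (.l []) (.l [40])) (.n (.l [6, 22]) (.l []))))))) (.n (.n (.n (.n (.n (.n (.l [29]) (.l [])) (.n (.l []) (.l [43]))) (.n (.n (.l []) (.l [19])) (.n (.l [26, 43]) (.l [])))) (.n (.l []) (.n (.n (.l [34, 63]) (.l [])) (.n (.l []) (.l [10, 15, 47]))))) (.n (.l []) (.n (.n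 (.n (.l [4, 32]) (.l [])) (.n (.l []) (.l [5, 12, 40]))) (.n (.n (.l []) (.l [45, 47])) (.n (.l [8, 57, 60]) (.l [])))))) (.n (.n (.n (.n (.n (.l []) (.l [63])) (.l [])) (.n (.n (.l [3]) (.l [])) (.n (.l []) (.l [63])))) (.n (.l []) (.n (.n (.l []) (.l [26])) (.l [])))) (.n (.n (.n (.n (.l [12, 60]) (.l [])) (.n (.l []) (.l [11, 28, 61]))) (.n (.n (.l []) (.l [8, 50])) (.n (.l [5, 20, 37]) (.l [])))) (.n (.n (.n (.l []) (.l [1])) (.l [])) (.n (.n (.l [12, 17, 31, 57]) (.l [])) (.n (.l []) (.l [4, 15, 18, 20, 25])))))))))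
  pj := [2050, 8391170, 281321144705, 17942226665857, 37959592247617, 576196903233, 16797724, 4124]

def E : Emc where
  nv := 16
  A := 0x2a2e29242b2f2d28221f252c1e271d132623211a101c190e091614152007061b05180d04010a170012110f0c02030b08
  ln := [4, 5, 6, 5, 6]
  par := [(0, 0), (0, 1), (0, 2), (0, 3), (2, 3)]
  cod := [[3, 0, 6, 15], [8, 1, 9, 21, 18], [17, 7, 19, 30, 33, 27], [5, 16, 28, 24, 12], [35, 31, 36, 42, 45, 39]]
  rep := [(0, 1), (0, 0), (0, 2), (1, 2), (3, 4), (0, 3), (1, 4), (1, 3), (3, 3), (2, 5), (2, 3), (2, 4), (4, 2), (4, 5), (4, 3), (4, 4)]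
  stp := [(0, 0, 0, 0, 0), (0, 0, 1, 0, 0), (0, 0, 2, 0, 0), (0, 0, 3, 0, 0), (1, 1, 0, 0, 1), (2, 1, 1, 0, 1), (0, 1, 2, 0, 0), (0, 1, 3, 0, 0), (0, 1, 4, 0, 0), (1, 2, 0, 0, 2), (2, 2, 1, 0, 2), (3, 2, 2, 1, 4), (0, 2, 3, 0, 0), (0, 2, 4, 0, 0), (0, 2, 5, 0, 0), (1, 3, 0, 0, 3), (2, 3, 1, 0, 3), (3, 3, 2, 2, 5), (0, 3, 3, 0, 0), (0, 3, 4, 0, 0), (1, 4, 0, 2, 3), (2, 4, 1, 2, 3), (0, 4, 2, 0, 0), (0, 4, 3, 0, 0), (0, 4, 4, 0, 0), (0, 4, 5, 0, 0)]
  prs := [(0, 0, 1, 1, 0, 0, 0, 0), (0, 0, 2, 2, 0, 0, 0, 0), (0, 1, 2, 4, 1, 0, 0, 0), (0, 0, 3, 3, 0, 0, 0, 0), (1, 1, 3, 2, 1, 5, 4, 1), (0, 2, 3, 5, 1, 0, 0, 0), (1, 0, 4, 2, 0, 3, 2, 0), (1, 1, 4, 2, 1, 3, 4, 0), (0, 2, 4, 3, 0, 0, 0, 0), (1, 3, 4, 2, 5, 3, 1, 0)]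
  exc := []

theorem c_emb : E.check = true := by decide +kernel

theorem c_wf : wfA X.nv X.A X.legs = true := by decide +kernel

theorem c_a1 : alln (fun q => Nat.beq (fld X.A1 q) (cond (Nat.beq (fld X.A q) q) 0 (Nat.succ (fld X.A q)))) (Nat.mul 3 X.nv)
    = true := by decide +kernel

theorem c_bad : badT X.legs false false X.R = true := by decide +kernel

theorem c_rc : ringc X.nv X.A X.legs = true := by decide +kernel

theorem c_rj : ringj X.nv X.A X.legs X.pj = true := by decide +kernel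

theorem c_main : Fk.dfs X.nv X.phi0 X.A1 X.legs [] (len X.legs) 0 (.l X.R) 0 0 0
    (Fk.mkT X.A1 X.nv X.legs X.legs true (Fk.gn X.A1 X.nv 0 0 [])) X.ones true true = true := by decide +kernel

theorem c_trip : Fk.tripS (Nat.sub (len X.legs) 1) (Fk.ta X.ones) (Fk.tb X.ones) = true := by decide +kernel

theorem ok : X.Ok := ⟨c_wf, c_a1, c_bad, c_rc, c_rj, c_main, c_trip⟩

end Pool.Agent.UH.Q565w6
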