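import Pool.Agent.UH.Fk

set_option autoImplicit false
set_option maxRecDepth 100000
set_option maxHeartbeats 0

namespace Pool.Agent.UH.Q566w4

def X : Fk.CertF where
  nv := 15
  A := 0x272b251f282c1e2a1d1c221a13292624231021190e091614152007061b05180d04010a170012110f0c02030b08
  A1 := 0x28002620002d1f2b1e1d001b142a2725241122000f0a0015162108071c06190005020018011312100d03040c09
  legs := [(10, 3645), (22, 1215), (40, 405), (43, 135), (34, 45), (25, 15), (13, 5)]
  R := 0x110000304c0001c1601800000000000000000000000000000000000000000000000000000000000000000000000000000000000000000000000000000000000000000001f00007034000640603000048000480500000000000281f0001b3500004c160040605c00790bd0780fb701728000000000000000000000000000000000000000000000000000000000000000000000000000000000000000000000000000000000000000000580001c120001201011000010000703800000000000e02000b18eb0001c01012018080001cf680e069da013000000000000000000000000000000000000006c1605c19068003c32c0280390c0240000000000001f0549102d800000f080fc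
  phi0 := 20
  ones := (.n (.n (.n (.n (.n (.n (.n (.l [20]) (.l [])) (.n (.l []) (.l [30]))) (.n (.l []) (.n (.l [8]) (.l [])))) (.n (.l []) (.n (.n (.l [2]) (.l [])) (.n (.l []) (.l [11]))))) (.n (.l []) (.n (.n (.n (.l [4]) (.l [])) (.n (.l []) (.l [22]))) (.n (.l []) (.n (.l [21]) (.l [])))))) (.n (.n (.n (.n (.n (.l []) (.l [1])) (.l [])) (.n (.n (.l [4]) (.l [])) (.n (.l []) (.l [17, 22])))) (.l [])) (.n (.n (.n (.n (.l [16]) (.l [])) (.n (.l []) (.l [14, 20]))) (.n (.l []) (.n (.l [18, 26]) (.l [])))) (.n (.n (.n (.l []) (.l [16])) (.l [])) (.n (.n (.l [25]) (.l [])) (.n (.l []) (.l [9, 25, 26]))))))) (.n (.n (.n (.n (.l []) (.n (.n (.l [3]) (.l [])) (.n (.l []) (.l [30])))) (.n (.l []) (.n (.n (.l []) (.l [23])) (.l [])))) (.n (.n (.n (.l []) (.n (.l []) (.l [25]))) (.n (.l []) (.n (.l [31]) (.l [])))) (.n (.n (.n (.l []) (.l [18])) (.l [])) (.n (.n (.l [11, 21]) (.l [])) (.n (.l []) (.l [13, 21, 29])))))) (.n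 (.n (.n (.n (.n (.l [6]) (.l [])) (.n (.l []) (.l [11]))) (.n (.l []) (.n (.l [10]) (.l [])))) (.n (.n (.n (.l []) (.l [28])) (.l [])) (.n (.n (.l [2, 24]) (.l [])) (.n (.l []) (.l [3, 6, 14, 19]))))) (.n (.n (.n (.n (.l []) (.l [8])) (.l [])) (.n (.l []) (.n (.l []) (.l [28])))) (.n (.n (.n (.l [9]) (.l [])) (.n (.l []) (.l [12, 14]))) (.n (.n (.l []) (.l [7])) (.n (.l [10, 24]) (.l []))))))))
  pj := [2050, 8391170, 2205466493313, 4604876226881, 34762588481, 16797724, 4124]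

def E : Emc where
  nv := 15
  A := 0x272b251f282c1e2a1d1c221a13292624231021190e091614152007061b05180d04010a170012110f0c02030b08
  ln := [4, 5, 6, 6, 4]
  par := [(0, 0), (0, 1), (0, 2), (0, 3), (2, 3)]
  cod := [[3, 0, 6, 15], [8, 1, 9, 21, 18], [17, 7, 19, 30, 36, 27], [5, 16, 28, 33, 24, 12], [38, 31, 39, 42]]
  rep := [(0, 1), (0, 0), (0, 2), (1, 2), (3, 5), (0, 3), (1, 4), (1, 3), (3, 4), (2, 5), (2, 3), (3, 3), (2, 4), (4, 2), (4, 3)]
  stp := [(0, 0, 0, 0, 0), (0, 0, 1, 0, 0), (0, 0, 2, 0, 0), (0, 0, 3, 0, 0), (1, 1, 0, 0, 1), (2, 1, 1, 0, 1), (0, 1, 2, 0, 0), (0, 1, 3, 0, 0), (0, 1, 4, 0, 0), (1, 2, 0, 0, 2), (2, 2, 1, 0, 2), (3, 2, 2, 1, 4), (0, 2, 3, 0, 0), (0, 2, 4, 0, 0), (0, 2, 5, 0, 0), (1, 3, 0, 0, 3), (2, 3, 1, 0, 3), (3, 3, 2, 2, 5), (0, 3, 3, 0, 0), (0, 3, 4, 0, 0), (0, 3, 5, 0, 0), (1, 4, 0, 2, 3), (2, 4, 1, 2, 3), (0, 4, 2, 0, 0), (0, 4, 3, 0, 0)]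
  prs := [(0, 0, 1, 1, 0, 0, 0, 0), (0, 0, 2, 2, 0, 0, 0, 0), (0, 1, 2, 4, 1, 0, 0, 0), (0, 0, 3, 3, 0, 0, 0, 0), (1, 1, 3, 2, 1, 5, 4, 1), (0, 2, 3, 5, 1, 0, 0, 0), (1, 0, 4, 2, 0, 3, 2, 0), (1, 1, 4, 2, 1, 3, 4, 0), (0, 2, 4, 3, 0, 0, 0, 0), (1, 3, 4, 2, 5, 3, 1, 0)]
  exc := []

theorem c_emb : E.check = true := by decide +kernel

theorem c_wf : wfA X.nv X.A X.legs = true := by decide +kernel

theorem c_a1 : alln (fun q => Nat.beq (fld X.A1 q) (cond (Nat.beq (fld X.A q) q) 0 (Nat.succ (fld X.A q)))) (Nat.mul 3 X.nv)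
    = true := by decide +kernel

theorem c_bad : badT X.legs false false X.R = true := by decide +kernel

theorem c_rc : ringc X.nv X.A X.legs = true := by decide +kernel

theorem c_rj : ringj X.nv X.A X.legs X.pj = true := by decide +kernel

theorem c_main : Fk.dfs X.nv X.phi0 X.A1 X.legs [] (len X.legs) 0 (.l X.R) 0 0 0
    (Fk.mkT X.A1 X.nv X.legs X.legs true (Fk.gn X.A1 X.nv 0 0 [])) X.ones true true = true := by decide +kernel

theorem c_trip : Fk.tripS (Nat.sub (len X.legs) 1) (Fk.ta X.ones) (Fk.tb X.ones) = true := by decide +kernel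

theorem ok : X.Ok := ⟨c_wf, c_a1, c_bad, c_rc, c_rj, c_main, c_trip⟩

end Pool.Agent.UH.Q566w4
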