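import Pool.Agent.UH.Fk

set_option autoImplicit false
set_option maxRecDepth 100000
set_option maxHeartbeats 0

namespace Pool.Agent.UH.Q656

def X : Fk.CertF where
  nv := 13
  A := 0x1c251a13221d151f1421261024190e0916201e2307061b05180d04010a170012110f0c02030b08
  A1 := 0x1d001b14001e16001522271125000f0a00211f2408071c06190005020018011312100d03040c09
  legs := [(10, 3645), (22, 1215), (31, 405), (34, 135), (37, 45), (25, 15), (13, 5)]
  R := 0x70000001c00000070000000000000000000000000000000000000000000000000000000000000000000000000000000000000000000000000000000000000000000000030000703c000441206800040000101600000000000281e0017ab10000400f068170300022f080241c44814400000000000000000000000000000000000000000000000000000000000000000000000000000000000000000000000000000000000000000002c00014140001b04001000140001304800000000001d014006874c0001e0080304409003f640418050b3060a00000000000000000000000000000000000005c090780e02800ecd540100aee81a38000000000000b05b1d055800001328291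
  phi0 := 7
  ones := (.n (.n (.n (.n (.n (.n (.n (.l [7]) (.l [])) (.n (.l []) (.l [25]))) (.n (.l []) (.n (.l [11]) (.l [])))) (.n (.l []) (.n (.n (.l [19]) (.l [])) (.n (.l []) (.l [21]))))) (.n (.n (.n (.n (.l []) (.l [28])) (.l [])) (.n (.n (.l [31]) (.l [])) (.n (.l []) (.l [19, 29])))) (.n (.n (.n (.l [16]) (.l [])) (.n (.l []) (.l [4, 19]))) (.n (.l []) (.n (.l [2, 17]) (.l [])))))) (.n (.l []) (.n (.n (.n (.n (.l [21]) (.l [])) (.n (.l []) (.l [29]))) (.n (.l []) (.n (.l [15]) (.l [])))) (.n (.n (.n (.l []) (.l [7])) (.l [])) (.n (.n (.l [2, 6]) (.l [])) (.n (.l []) (.l [4, 10, 14, 20]))))))) (.n (.n (.n (.n (.l []) (.n (.n (.l [21]) (.l [])) (.n (.l []) (.l [12])))) (.n (.n (.l []) (.n (.l []) (.l [25]))) (.n (.n (.l []) (.l [8])) (.n (.l [29]) (.l []))))) (.n (.l []) (.n (.n (.n (.l []) (.l [5])) (.l [])) (.n (.l []) (.n (.l []) (.l [16])))))) (.n (.n (.n (.n (.n (.l [18]) (.l [])) (.n (.l []) (.l [29]))) (.n (.l []) (.n (.l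 [8]) (.l [])))) (.n (.n (.n (.l []) (.l [22])) (.l [])) (.n (.n (.l [6, 17]) (.l [])) (.n (.l []) (.l [9, 24, 26]))))) (.n (.n (.n (.n (.l []) (.l [14])) (.l [])) (.n (.n (.l [0, 15]) (.l [])) (.n (.l []) (.l [12, 14, 23])))) (.n (.n (.n (.l [0]) (.l [])) (.n (.l []) (.l [8, 16, 20, 24]))) (.n (.n (.l []) (.l [24])) (.n (.l [2, 8, 18, 28]) (.l []))))))))
  pj := [2050, 8391170, 1075052929, 34360525185, 275280757057, 16797724, 4124]

def E : Emc where
  nv := 13
  A := 0x1c251a13221d151f1421261024190e0916201e2307061b05180d04010a170012110f0c02030b08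
  ln := [4, 6, 5, 6]
  par := [(0, 0), (0, 1), (0, 2), (0, 3)]
  cod := [[3, 0, 6, 15], [8, 1, 9, 21, 30, 18], [17, 7, 19, 33, 27], [5, 16, 28, 36, 24, 12]]
  rep := [(0, 1), (0, 0), (0, 2), (1, 2), (3, 5), (0, 3), (1, 5), (1, 3), (3, 4), (2, 4), (1, 4), (2, 3), (3, 3)]
  stp := [(0, 0, 0, 0, 0), (0, 0, 1, 0, 0), (0, 0, 2, 0, 0), (0, 0, 3, 0, 0), (1, 1, 0, 0, 1), (2, 1, 1, 0, 1), (0, 1, 2, 0, 0), (0, 1, 3, 0, 0), (0, 1, 4, 0, 0), (0, 1, 5, 0, 0), (1, 2, 0, 0, 2), (2, 2, 1, 0, 2), (3, 2, 2, 1, 5), (0, 2, 3, 0, 0), (0, 2, 4, 0, 0), (1, 3, 0, 0, 3), (2, 3, 1, 0, 3), (3, 3, 2, 2, 4), (0, 3, 3, 0, 0), (0, 3, 4, 0, 0), (0, 3, 5, 0, 0)]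
  prs := [(0, 0, 1, 1, 0, 0, 0, 0), (0, 0, 2, 2, 0, 0, 0, 0), (0, 1, 2, 5, 1, 0, 0, 0), (0, 0, 3, 3, 0, 0, 0, 0), (1, 1, 3, 2, 1, 4, 5, 1), (0, 2, 3, 4, 1, 0, 0, 0)]
  exc := []

theorem c_emb : E.check = true := by decide +kernel

theorem c_wf : wfA X.nv X.A X.legs = true := by decide +kernel

theorem c_a1 : alln (fun q => Nat.beq (fld X.A1 q) (cond (Nat.beq (fld X.A q) q) 0 (Nat.succ (fld X.A q)))) (Nat.mul 3 X.nv)
    = true := by decide +kernel

theorem c_bad : badT X.legs false false X.R = true := by decide +kernel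

theorem c_rc : ringc X.nv X.A X.legs = true := by decide +kernel

theorem c_rj : ringj X.nv X.A X.legs X.pj = true := by decide +kernel

theorem c_main : Fk.dfs X.nv X.phi0 X.A1 X.legs [] (len X.legs) 0 (.l X.R) 0 0 0
    (Fk.mkT X.A1 X.nv X.legs X.legs true (Fk.gn X.A1 X.nv 0 0 [])) X.ones true true = true := by decide +kernel

theorem c_trip : Fk.tripS (Nat.sub (len X.legs) 1) (Fk.ta X.ones) (Fk.tb X.ones) = true := by decide +kernel

theorem ok : X.Ok := ⟨c_wf, c_a1, c_bad, c_rc, c_rj, c_main, c_trip⟩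

end Pool.Agent.UH.Q656
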