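import Pool.Agent.UH.Fk

set_option autoImplicit false
set_option maxRecDepth 100000
set_option maxHeartbeats 0

namespace Pool.Agent.UH.Q664w5

def X : Fk.CertF where
  nv := 15
  A := 0x242b292a28221f252c1e271a132623151c14210e1009161d1b2007061805190d04010a170012110f0c02030b08
  A1 := 0x25002a2b002320002d1f281b142724160015220f110a001e1c21080719061a0005020018011312100d03040c09
  legs := [(10, 2916), (22, 972), (28, 324), (37, 108), (43, 36), (40, 12), (13, 4)]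
  R := 0x10000010100000000000000000000000000000000000000000000000000000000000000000000000000000000000000000000000d000d0e00080f0b000500050100000000070e00ac600009080204000085bf0707aa025000000000000000000000000000000000000000000000000000000000000000000000000000000000000000000002000303000b08040009000d0d000000000a0b00e4f2000008000d0700435b0006bd0bb000000000000000000000000000000b080a0b040090910f049c06f0000000000b054705f0000bd07c
  phi0 := 9
  ones := (.n (.n (.n (.n (.n (.n (.n (.l [9]) (.l [])) (.n (.l []) (.l [5]))) (.n (.l []) (.n (.l [15]) (.l [])))) (.n (.l []) (.n (.n (.l [13]) (.l [])) (.n (.l []) (.l [3]))))) (.n (.n (.l []) (.n (.l []) (.n (.l []) (.l [0])))) (.n (.n (.n (.l [5]) (.l [])) (.l [])) (.n (.n (.l []) (.l [0])) (.n (.l [1]) (.l [])))))) (.n (.l []) (.n (.n (.n (.n (.l [3]) (.l [])) (.n (.l []) (.l [15]))) (.n (.l []) (.n (.l [8, 12]) (.l [])))) (.n (.n (.l []) (.n (.l [10]) (.l []))) (.n (.n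 (.l [4, 10]) (.l [])) (.n (.l []) (.l [7]))))))) (.n (.n (.n (.n (.n (.n (.l []) (.l [6])) (.l [])) (.n (.l []) (.n (.l []) (.l [1, 13])))) (.n (.n (.l []) (.n (.l []) (.l [2]))) (.n (.n (.l []) (.l [7, 13])) (.l [])))) (.n (.l []) (.n (.n (.n (.l []) (.l [0])) (.l [])) (.n (.l []) (.n (.l []) (.l [8])))))) (.n (.n (.n (.n (.n (.l [2]) (.l [])) (.n (.l []) (.l [14]))) (.n (.l []) (.n (.l [5, 9]) (.l [])))) (.n (.n (.l []) (.n (.l [11]) (.l []))) (.n (.n (.l [5, 13]) (.l [])) (.n (.l []) (.l [6]))))) (.n (.n (.n (.n (.l []) (.l [2])) (.l [])) (.n (.l []) (.n (.l []) (.l [4, 5, 12])))) (.n (.n (.n (.l [11]) (.l [])) (.n (.l []) (.l [6, 14]))) (.n (.n (.l []) (.l [4, 12, 13])) (.n (.l [15]) (.l []))))))))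
  pj := [2050, 8391170, 135528833, 281321144705, 17942226665857, 575609700673, 4124]

def E : Emc where
  nv := 15
  A := 0x242b292a28221f252c1e271a132623151c14210e1009161d1b2007061805190d04010a170012110f0c02030b08
  ln := [4, 6, 6, 4, 5]
  par := [(0, 0), (0, 1), (0, 2), (0, 3), (2, 3)]
  cod := [[3, 0, 6, 15], [8, 1, 9, 21, 27, 18], [17, 7, 19, 30, 33, 24], [5, 16, 25, 12], [35, 31, 36, 42, 39]]
  rep := [(0, 1), (0, 0), (0, 2), (1, 2), (3, 3), (0, 3), (1, 5), (1, 3), (2, 5), (1, 4), (2, 3), (2, 4), (4, 2), (4, 4), (4, 3)]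
  stp := [(0, 0, 0, 0, 0), (0, 0, 1, 0, 0), (0, 0, 2, 0, 0), (0, 0, 3, 0, 0), (1, 1, 0, 0, 1), (2, 1, 1, 0, 1), (0, 1, 2, 0, 0), (0, 1, 3, 0, 0), (0, 1, 4, 0, 0), (0, 1, 5, 0, 0), (1, 2, 0, 0, 2), (2, 2, 1, 0, 2), (3, 2, 2, 1, 5), (0, 2, 3, 0, 0), (0, 2, 4, 0, 0), (0, 2, 5, 0, 0), (1, 3, 0, 0, 3), (2, 3, 1, 0, 3), (3, 3, 2, 2, 5), (0, 3, 3, 0, 0), (1, 4, 0, 2, 3), (2, 4, 1, 2, 3), (0, 4, 2, 0, 0), (0, 4, 3, 0, 0), (0, 4, 4, 0, 0)]
  prs := [(0, 0, 1, 1, 0, 0, 0, 0), (0, 0, 2, 2, 0, 0, 0, 0), (0, 1, 2, 5, 1, 0, 0, 0), (0, 0, 3, 3, 0, 0, 0, 0), (1, 1, 3, 2, 1, 5, 5, 1), (0, 2, 3, 5, 1, 0, 0, 0), (1, 0, 4, 2, 0, 3, 2, 0), (1, 1, 4, 2, 1, 3, 5, 0), (0, 2, 4, 3, 0, 0, 0, 0), (1, 3, 4, 2, 5, 3, 1, 0)]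
  exc := []

theorem c_emb : E.check = true := by decide +kernel

theorem c_wf : wfA X.nv X.A X.legs = true := by decide +kernel

theorem c_a1 : alln (fun q => Nat.beq (fld X.A1 q) (cond (Nat.beq (fld X.A q) q) 0 (Nat.succ (fld X.A q)))) (Nat.mul 3 X.nv)
    = true := by decide +kernel

theorem c_bad : badT X.legs false false X.R = true := by decide +kernel

theorem c_rc : ringc X.nv X.A X.legs = true := by decide +kernel

theorem c_rj : ringj X.nv X.A X.legs X.pj = true := by decide +kernel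

theorem c_main : Fk.dfs X.nv X.phi0 X.A1 X.legs [] (len X.legs) 0 (.l X.R) 0 0 0
    (Fk.mkT X.A1 X.nv X.legs X.legs true (Fk.gn X.A1 X.nv 0 0 [])) X.ones true true = true := by decide +kernel

theorem c_trip : Fk.tripS (Nat.sub (len X.legs) 1) (Fk.ta X.ones) (Fk.tb X.ones) = true := by decide +kernel

theorem ok : X.Ok := ⟨c_wf, c_a1, c_bad, c_rc, c_rj, c_main, c_trip⟩

end Pool.Agent.UH.Q664w5
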