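import Pool.Agent.UH.Fk

set_option autoImplicit false
set_option maxRecDepth 100000
set_option maxHeartbeats 0

namespace Pool.Agent.UH.Q664w6

def X : Fk.CertF where
  nv := 16
  A := 0x2a2e29242b2f2d28221f252c1e271a132623151c14210e1009161d1b2007061805190d04010a170012110f0c02030b08
  A1 := 0x2b002a2500302e002320002d1f281b142724160015220f110a001e1c21080719061a0005020018011312100d03040c09
  legs := [(10, 13122), (22, 4374), (28, 1458), (37, 486), (43, 162), (46, 54), (40, 18), (13, 6)]
  R := 0x240000000000000000f00f00d40249000000000000000d40240240f00000000000000840000000000000000000000000000000000000000000000000000000000000000000000000000000000000000000000000000000000000000000000000000000000000000000000000000000000000000000000000000000000000000000000000000000000000000000000000000000000000000000000000000000000000000000000000000000000000000000000000000000000000000000000000000000000000000000000000000000000000000000000000000000000000000000000000000000000000000000000000000000e000000000000000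00c00280f40def000000000000000c00840d00311000000b9b01fcc00000000009800000000000000007c0a40ec04240000000000000000000000000000000000000000001c0200e00807ec0d40000900500246c80132bc0000000000000000780680b8066c0000005330375806807c0f8089dfc0180000c00bc02d03c0053440000000bea00e3807c02c06028c0007a0dd80a00e400000000000000000000000000000000000000000000000000000000000000000000000000000000000000000000000000000000000000000000000000000000000000000000000000000000000000000000000000000000000000000000000000000000000000000000000000000000000000000000000000000000000000000000000000000000000000000000000000000000000000000000000000000000000000000000000000000000000000000000000000000000000000000000000000000000000000000000000000000009400000000000000000c00c0d407ca000000000000000c804c0cc03f800000063903a8400000000006800000000000000000800808c06a1000000000000000000000000000000000000000000900740e006eb2c03c0000300240746380434280000000000000000e00380ac0d8000000075602bd40bc0c803009f8b00300000940d80d02cc0c8e54000000076600cf80c4a4407113c0029498180a00100000000000000000000000000000000000000000000000000000000000000000000000000000000000000000000000000000000000000000000000000000000000000000f00e407009e7000000042037900b803c038077a7c0f40000700940b4d900784a800000000b401b940e0a380a56f8003d7f0600a40e0000000000000000000000000000000000000000000000066c03cb404630408d8000000e24280a00f000000000000000103e5540140e400001c0fc0a80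
  phi0 := 61
  ones := (.n (.n (.n (.n (.n (.n (.n (.n (.l [61]) (.l [])) (.n (.l []) (.l [52]))) (.n (.l []) (.n (.l [17]) (.l [])))) (.n (.l []) (.n (.n (.l [31]) (.l [])) (.n (.l []) (.l [14]))))) (.n (.l []) (.n (.n (.n (.l [54]) (.l [])) (.n (.l []) (.l [61]))) (.n (.l []) (.n (.l [2]) (.l [])))))) (.n (.n (.n (.l []) (.n (.l []) (.n (.l []) (.l [1])))) (.n (.l []) (.n (.n (.l []) (.l [40])) (.l [])))) (.n (.n (.n (.n (.l [26]) (.l [])) (.l [])) (.n (.l []) (.n (.l [52]) (.l [])))) (.n (.n (.n (.l []) (.l [4])) (.l [])) (.n (.n (.l [32]) (.l [])) (.n (.l []) (.l [12, 54]))))))) (.n (.l []) (.n (.n (.n (.n (.n (.l [18]) (.l [])) (.n (.l []) (.l [48]))) (.n (.l []) (.n (.l [18]) (.l [])))) (.n (.l []) (.n (.n (.l [19, 42]) (.l [])) (.n (.l []) (.l [10]))))) (.n (.n (.n (.l []) (.n (.l [23]) (.l []))) (.l [])) (.n (.n (.n (.l [24, 63]) (.l [])) (.n (.l []) (.l [51]))) (.n (.l []) (.n (.l [2, 34, 56, 61]) (.l [])))))))) (.n (.n (.n (.n (.n (.n (.n (.l []) (.l [28])) (.l [])) (.n (.l [])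 (.n (.l []) (.l [13, 49])))) (.n (.l []) (.n (.n (.l []) (.l [47, 59])) (.l [])))) (.n (.n (.n (.l []) (.n (.l []) (.l [41]))) (.l [])) (.n (.n (.n (.l []) (.l [52, 60])) (.l [])) (.n (.l []) (.n (.l []) (.l [23, 31, 36, 37])))))) (.n (.l []) (.n (.n (.n (.n (.l []) (.l [39])) (.l [])) (.n (.l []) (.n (.l []) (.l [19])))) (.n (.l []) (.n (.n (.l []) (.l [29])) (.l [])))))) (.n (.n (.n (.n (.n (.n (.l [6]) (.l [])) (.n (.l []) (.l [12]))) (.n (.l []) (.n (.l [23, 39]) (.l [])))) (.n (.l []) (.n (.n (.l [1, 31]) (.l [])) (.n (.l []) (.l [54]))))) (.n (.n (.n (.l []) (.n (.l [17]) (.l []))) (.l [])) (.n (.n (.n (.l [3, 30]) (.l [])) (.n (.l []) (.l [6]))) (.n (.l []) (.n (.l [1, 5, 19, 41]) (.l [])))))) (.n (.n (.n (.n (.n (.l []) (.l [8])) (.l [])) (.n (.l []) (.n (.l []) (.l [3, 17, 41])))) (.n (.l []) (.n (.n (.l []) (.l [15, 33, 53])) (.l [])))) (.n (.n (.n (.n (.l [7]) (.l [])) (.n (.l []) (.l [16, 44]))) (.n (.l []) (.n (.l [41]) (.l [])))) (.n (.n (.n (.l []) (.l [20, 44, 56])) (.l []))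 (.n (.n (.l [61]) (.l [])) (.n (.l []) (.l [8, 17, 32, 43, 52])))))))))
  pj := [2050, 8391170, 135528833, 281321144705, 17942226665857, 37959005045057, 575609700673, 4124]

def E : Emc where
  nv := 16
  A := 0x2a2e29242b2f2d28221f252c1e271a132623151c14210e1009161d1b2007061805190d04010a170012110f0c02030b08
  ln := [4, 6, 6, 4, 6]
  par := [(0, 0), (0, 1), (0, 2), (0, 3), (2, 3)]
  cod := [[3, 0, 6, 15], [8, 1, 9, 21, 27, 18], [17, 7, 19, 30, 33, 24], [5, 16, 25, 12], [35, 31, 36, 42, 45, 39]]
  rep := [(0, 1), (0, 0), (0, 2), (1, 2), (3, 3), (0, 3), (1, 5), (1, 3), (2, 5), (1, 4), (2, 3), (2, 4), (4, 2), (4, 5), (4, 3), (4, 4)]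
  stp := [(0, 0, 0, 0, 0), (0, 0, 1, 0, 0), (0, 0, 2, 0, 0), (0, 0, 3, 0, 0), (1, 1, 0, 0, 1), (2, 1, 1, 0, 1), (0, 1, 2, 0, 0), (0, 1, 3, 0, 0), (0, 1, 4, 0, 0), (0, 1, 5, 0, 0), (1, 2, 0, 0, 2), (2, 2, 1, 0, 2), (3, 2, 2, 1, 5), (0, 2, 3, 0, 0), (0, 2, 4, 0, 0), (0, 2, 5, 0, 0), (1, 3, 0, 0, 3), (2, 3, 1, 0, 3), (3, 3, 2, 2, 5), (0, 3, 3, 0, 0), (1, 4, 0, 2, 3), (2, 4, 1, 2, 3), (0, 4, 2, 0, 0), (0, 4, 3, 0, 0), (0, 4, 4, 0, 0), (0, 4, 5, 0, 0)]
  prs := [(0, 0, 1, 1, 0, 0, 0, 0), (0, 0, 2, 2, 0, 0, 0, 0), (0, 1, 2, 5, 1, 0, 0, 0), (0, 0, 3, 3, 0, 0, 0, 0), (1, 1, 3, 2, 1, 5, 5, 1), (0, 2, 3, 5, 1, 0, 0, 0), (1, 0, 4, 2, 0, 3, 2, 0), (1, 1, 4, 2, 1, 3, 5, 0), (0, 2, 4, 3, 0, 0, 0, 0), (1, 3, 4, 2, 5, 3, 1, 0)]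
  exc := []

theorem c_emb : E.check = true := by decide +kernel

theorem c_wf : wfA X.nv X.A X.legs = true := by decide +kernel

theorem c_a1 : alln (fun q => Nat.beq (fld X.A1 q) (cond (Nat.beq (fld X.A q) q) 0 (Nat.succ (fld X.A q)))) (Nat.mul 3 X.nv)
    = true := by decide +kernel

theorem c_bad : badT X.legs false false X.R = true := by decide +kernel

theorem c_rc : ringc X.nv X.A X.legs = true := by decide +kernel

theorem c_rj : ringj X.nv X.A X.legs X.pj = true := by decide +kernel

theorem c_main : Fk.dfs X.nv X.phi0 X.A1 X.legs [] (len X.legs) 0 (.l X.R) 0 0 0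
    (Fk.mkT X.A1 X.nv X.legs X.legs true (Fk.gn X.A1 X.nv 0 0 [])) X.ones true true = true := by decide +kernel

theorem c_trip : Fk.tripS (Nat.sub (len X.legs) 1) (Fk.ta X.ones) (Fk.tb X.ones) = true := by decide +kernel

theorem ok : X.Ok := ⟨c_wf, c_a1, c_bad, c_rc, c_rj, c_main, c_trip⟩

end Pool.Agent.UH.Q664w6
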