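import Pool.Agent.UH.Fk

set_option autoImplicit false
set_option maxRecDepth 100000
set_option maxHeartbeats 0

namespace Pool.Agent.UH.V5565x6

def X : Fk.CertF where
  nv := 18
  A := 0x2d343233312b252e352230292a2820162f23242c13271d101f1c0e091917182607062111121e051b0d04010a1a0015140f0c02030b08
  A1 := 0x2e003334002c26003623312a2b0021173024252d14281e1120000f0a0018192708072212131f061c000502001b011615100d03040c09
  legs := [(10, 8748), (25, 2916), (46, 972), (52, 324), (49, 108), (40, 36), (28, 12), (13, 4)]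
  R := 0x700000000000c0f0f0080000000000a01050900000d40bd0000000000000000000000000000000000000000000000000000000000000000000000000000000000000000000000000000000000000000000000000000000000000000000000000000000000000000000000000000000000000000000000000000000000000000000000000000000000000000000000000000000000000000000000000000000000000b0000000000070304008000000000030c0d09800005c0c50000000900000000000b0b09000000000000000000000000000000080b0c052c0d00020605580c750000000000010d000620000270d006050c0a010f00090108ba06c800000ec0ee0eaf07ee0068460c0600000000000000000000000000000000000000000000000000000000000000000000000000000000000000000000000000000000000000000000000000000000000000000000000000000000000000000000000000000000000000000000000000000000000000000000000000000000000000000000000000000000000000000000000000000000000002000000000004050f08100000000002060a0a10000140410000000f00000000000a0801007000000000000000000000000000030b0601b80300030c0058031300000000000b00040130000f108304000d0ef80e0003080c480cd800000d50bd0074092f00b1620d0200000000000000000000000000000000000000000000000000000000000000000000000000000000000000000007080009500007702c0a050008080d0004070d8704d600000b907502ad00ce000cff06000000000000000000000000000000000790520d88091900379f090d000000000090ae0701000f07070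
  phi0 := 16
  ones := (.n (.n (.n (.n (.n (.n (.l []) (.n (.n (.l []) (.l [9])) (.l []))) (.l [])) (.n (.l []) (.n (.n (.l []) (.n (.l []) (.l [0]))) (.n (.n (.l []) (.l [8])) (.l []))))) (.n (.n (.n (.l []) (.n (.n (.l [3]) (.l [])) (.n (.l []) (.l [9])))) (.n (.n (.l []) (.n (.l []) (.l [13]))) (.l []))) (.n (.n (.n (.l []) (.n (.l []) (.l [11]))) (.n (.n (.l []) (.l [10])) (.l []))) (.n (.l []) (.n (.n (.l [0]) (.l [])) (.n (.l []) (.l [10]))))))) (.n (.n (.n (.n (.l []) (.n (.n (.l [1]) (.l [])) (.n (.l []) (.l [13])))) (.n (.l []) (.n (.n (.l []) (.l [6])) (.l [])))) (.n (.l []) (.n (.l []) (.n (.n (.l [9]) (.l [])) (.n (.l []) (.l [5])))))) (.n (.n (.n (.n (.n (.l [11]) (.l [])) (.n (.l []) (.l [3]))) (.n (.n (.l []) (.l [3])) (.n (.l [1]) (.l [])))) (.n (.n (.n (.l []) (.l [12])) (.l [])) (.n (.n (.l [4]) (.l [])) (.n (.l []) (.l [12]))))) (.n (.n (.l []) (.n (.n (.l [2]) (.l [])) (.n (.l []) (.l [0, 9])))) (.n (.n (.n (.l [3]) (.l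 [])) (.n (.l []) (.l [11]))) (.n (.n (.l []) (.l [0, 5])) (.n (.l [11]) (.l [])))))))) (.n (.n (.n (.n (.n (.n (.n (.l []) (.l [15])) (.l [])) (.n (.n (.l [11]) (.l [])) (.n (.l []) (.l [5, 7])))) (.n (.l []) (.n (.n (.l []) (.l [0])) (.l [])))) (.n (.l []) (.n (.n (.n (.l []) (.l [7])) (.n (.l [11]) (.l []))) (.n (.n (.l [1]) (.l [])) (.n (.l []) (.l [13, 15])))))) (.n (.n (.n (.n (.l []) (.n (.l []) (.l [13]))) (.n (.n (.l []) (.l [9])) (.n (.l [4]) (.l [])))) (.n (.n (.l []) (.n (.l [0]) (.l []))) (.n (.l []) (.n (.l []) (.l [0, 12]))))) (.n (.n (.n (.n (.l []) (.l [0])) (.n (.l [11]) (.l []))) (.n (.n (.l [15]) (.l [])) (.n (.l []) (.l [6, 10])))) (.n (.n (.l []) (.n (.l []) (.l [1, 7]))) (.n (.n (.l []) (.l [15])) (.n (.l [2, 12]) (.l []))))))) (.n (.n (.n (.n (.l []) (.n (.n (.l []) (.l [15])) (.l []))) (.l [])) (.n (.l []) (.n (.n (.n (.l [7]) (.l [])) (.n (.l []) (.l [0, 12]))) (.n (.n (.l []) (.l [11])) (.l []))))) (.n (.n (.n (.l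 []) (.n (.n (.l [5]) (.l [])) (.n (.l []) (.l [15])))) (.n (.n (.n (.l [2]) (.l [])) (.n (.l []) (.l [4]))) (.l []))) (.n (.n (.n (.n (.l [12]) (.l [])) (.n (.l []) (.l [2, 12]))) (.n (.n (.l []) (.l [9])) (.l []))) (.n (.l []) (.n (.n (.l [3]) (.l [])) (.n (.l []) (.l [9])))))))))
  pj := [2050, 67111426, 141149811507585, 9183533438337409, 307889027154241, 555124621356, 134238236, 4124]

def E : Emc where
  nv := 18
  A := 0x2d343233312b252e352230292a2820162f23242c13271d101f1c0e091917182607062111121e051b0d04010a1a0015140f0c02030b08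
  ln := [5, 5, 5, 6, 5, 6]
  par := [(0, 0), (0, 1), (0, 2), (0, 3), (0, 4), (2, 3)]
  cod := [[3, 0, 6, 18, 15], [8, 1, 9, 24, 21], [20, 7, 22, 36, 33], [17, 19, 34, 42, 39, 30], [5, 16, 31, 27, 12], [35, 37, 45, 51, 48, 44]]
  rep := [(0, 1), (0, 0), (0, 2), (1, 2), (4, 4), (0, 4), (0, 3), (1, 4), (1, 3), (4, 3), (3, 5), (2, 4), (2, 3), (3, 4), (3, 3), (5, 2), (5, 4), (5, 3)]
  stp := [(0, 0, 0, 0, 0), (0, 0, 1, 0, 0), (0, 0, 2, 0, 0), (0, 0, 3, 0, 0), (0, 0, 4, 0, 0), (1, 1, 0, 0, 1), (2, 1, 1, 0, 1), (0, 1, 2, 0, 0), (0, 1, 3, 0, 0), (0, 1, 4, 0, 0), (1, 2, 0, 0, 2), (2, 2, 1, 0, 2), (3, 2, 2, 1, 4), (0, 2, 3, 0, 0), (0, 2, 4, 0, 0), (1, 3, 0, 0, 3), (2, 3, 1, 0, 3), (3, 3, 2, 2, 4), (0, 3, 3, 0, 0), (0, 3, 4, 0, 0), (0, 3, 5, 0, 0), (1, 4, 0, 0, 4), (2, 4, 1, 0, 4), (3, 4, 2, 3, 5), (0, 4, 3, 0, 0), (0, 4, 4, 0, 0), (1, 5, 0, 2, 3), (2, 5, 1, 2, 3), (0, 5, 2, 0, 0), (0, 5, 3, 0, 0), (0, 5, 4, 0, 0), (4, 5, 5, 3, 2)]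
  prs := [(0, 0, 1, 1, 0, 0, 0, 0), (0, 0, 2, 2, 0, 0, 0, 0), (0, 1, 2, 4, 1, 0, 0, 0), (0, 0, 3, 3, 0, 0, 0, 0), (1, 1, 3, 2, 1, 4, 4, 1), (0, 2, 3, 4, 1, 0, 0, 0), (0, 0, 4, 4, 0, 0, 0, 0), (1, 1, 4, 0, 1, 4, 0, 0), (1, 2, 4, 3, 1, 5, 4, 1), (0, 3, 4, 5, 1, 0, 0, 0), (1, 0, 5, 3, 0, 2, 3, 5), (1, 1, 5, 2, 1, 3, 4, 0), (0, 2, 5, 3, 0, 0, 0, 0), (0, 3, 5, 2, 5, 0, 0, 0), (1, 4, 5, 3, 5, 2, 1, 5)]
  exc := []

theorem c_emb : E.check = true := by decide +kernel

theorem c_wf : wfA X.nv X.A X.legs = true := by decide +kernel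

theorem c_a1 : alln (fun q => Nat.beq (fld X.A1 q) (cond (Nat.beq (fld X.A q) q) 0 (Nat.succ (fld X.A q)))) (Nat.mul 3 X.nv)
    = true := by decide +kernel

theorem c_bad : badT X.legs false false X.R = true := by decide +kernel

theorem c_rc : ringc X.nv X.A X.legs = true := by decide +kernel

theorem c_rj : ringj X.nv X.A X.legs X.pj = true := by decide +kernel

theorem c_main : Fk.dfs X.nv X.phi0 X.A1 X.legs [] (len X.legs) 0 (.l X.R) 0 0 0
    (Fk.mkT X.A1 X.nv X.legs X.legs true (Fk.gn X.A1 X.nv 0 0 [])) X.ones true true = true := by decide +kernel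

theorem c_trip : Fk.tripS (Nat.sub (len X.legs) 1) (Fk.ta X.ones) (Fk.tb X.ones) = true := by decide +kernel

theorem ok : X.Ok := ⟨c_wf, c_a1, c_bad, c_rc, c_rj, c_main, c_trip⟩

end Pool.Agent.UH.V5565x6
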