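import Pool.Agent.UH.Fk

set_option autoImplicit false
set_option maxRecDepth 100000
set_option maxHeartbeats 0

namespace Pool.Agent.UH.V5566x5

def X : Fk.CertF where
  nv := 18
  A := 0x30342e25313522332c2d2b201f281d163223242f132a2910271c0e091917182607062111121e051b0d04010a1a0015140f0c02030b08
  A1 := 0x31002f26003623342d2e002120001e1733242530142b2a1128000f0a0018192708072212131f061c000502001b011615100d03040c09
  legs := [(10, 8748), (25, 2916), (49, 972), (52, 324), (43, 108), (40, 36), (28, 12), (13, 4)]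
  R := 0x800000000000f030e0410000000000b0a090010000930b90000000000000000000000000000000000000000000000000000000000000000000000000000000000000000000000000000000000000000000000000000000000000000000000000000000000000000000000000000000000000000000000000000000000000000000000000000000000000000000000000000000000000000000000000000000000000400000000000004070070000000000407070370000340430000000b0000000000080308000000000000000000000000000000090b0d080b0a00080b0dde00b600000000000d010a0d60000fa0290e090b0c0c0f000c0d0c780ca500000fe0ef02a8091b008b3203030000000000000000000000000000000000000000000000000000000000000000000000000000000000000000000000000000000000000000000000000000000000000000000000000000000000000000000000000000000000000000000000000000000000000000000000000000000000000000000000000000000000000000000000000000000000000100000000000f0e080070000000000e0d0803700007505700000006000000000004030b01f000000000000000000000000000090a0b05f60d000c080c330f4c00000000000d050209900008c0610a0f070be70300070608e505ff00000540f50d540de500efe70e06000000000000000000000000000000000000000000000000000000000000000000000000000000000000000000010f0c0880000ad01a0e010400d1020005080f290c7800000bb000009e094c00ea820e0b00000000000000000000000000000005d0a6039307f100cf990a0100000000006b100a05000408010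
  phi0 := 16
  ones := (.n (.n (.n (.n (.n (.l []) (.n (.n (.n (.l []) (.l [12])) (.l [])) (.n (.l []) (.n (.l []) (.l [3]))))) (.l [])) (.n (.n (.l []) (.n (.n (.n (.l [15]) (.l [])) (.n (.l []) (.l [6]))) (.n (.l []) (.n (.l [2]) (.l []))))) (.n (.n (.n (.l []) (.n (.l []) (.l [2]))) (.n (.n (.l []) (.l [10])) (.n (.l [15]) (.l [])))) (.n (.n (.n (.l []) (.l [12])) (.l [])) (.n (.l []) (.n (.l []) (.l [3]))))))) (.n (.n (.n (.l []) (.n (.n (.n (.l [6]) (.l [])) (.n (.l []) (.l [1]))) (.n (.l []) (.n (.l [0]) (.l []))))) (.n (.n (.n (.l []) (.n (.l []) (.l [5]))) (.n (.n (.l []) (.l [0])) (.n (.l [3]) (.l [])))) (.n (.n (.n (.l []) (.l [3])) (.l [])) (.n (.l []) (.n (.l []) (.l [7, 12])))))) (.n (.n (.n (.n (.n (.l [14]) (.l [])) (.n (.l []) (.l [14]))) (.n (.l []) (.n (.l [10]) (.l [])))) (.n (.n (.n (.l []) (.l [3])) (.l [])) (.n (.n (.l [6]) (.l [])) (.n (.l []) (.l [0, 6]))))) (.n (.n (.n (.n (.l []) (.l [3])) (.l [])) (.n (.l [])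 (.n (.l []) (.l [6, 10])))) (.n (.n (.n (.l [12, 15]) (.l [])) (.n (.l []) (.l [7, 14]))) (.n (.n (.l []) (.l [1, 6])) (.n (.l [6, 10]) (.l [])))))))) (.n (.n (.n (.n (.n (.n (.n (.l []) (.l [7])) (.l [])) (.n (.l []) (.n (.l []) (.l [1])))) (.n (.n (.n (.l [13]) (.l [])) (.n (.l []) (.l [10]))) (.n (.n (.l []) (.l [2])) (.n (.l [11]) (.l []))))) (.n (.l []) (.n (.n (.n (.l []) (.l [4])) (.l [])) (.n (.l []) (.n (.l []) (.l [3])))))) (.n (.n (.n (.l []) (.n (.n (.l []) (.l [7])) (.l []))) (.n (.n (.n (.l []) (.l [15])) (.l [])) (.n (.n (.l [0]) (.l [])) (.n (.l []) (.l [6, 15]))))) (.n (.n (.n (.n (.l []) (.l [4])) (.l [])) (.n (.l []) (.n (.l []) (.l [2])))) (.n (.n (.n (.l [4]) (.l [])) (.n (.l []) (.l [6]))) (.n (.n (.l []) (.l [1])) (.n (.l [2, 7]) (.l []))))))) (.n (.n (.n (.n (.n (.l []) (.n (.l []) (.l [0]))) (.n (.n (.l []) (.l [7])) (.n (.l [1]) (.l [])))) (.n (.n (.n (.l []) (.l [0])) (.l [])) (.n (.l []) (.n (.l []) (.l [0])))))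 (.l [])) (.n (.n (.l []) (.n (.n (.n (.l [7]) (.l [])) (.n (.l []) (.l [1]))) (.n (.l []) (.n (.l [5]) (.l []))))) (.n (.n (.n (.l []) (.n (.l []) (.l [9, 11]))) (.n (.n (.l []) (.l [7])) (.n (.l [9, 13]) (.l [])))) (.n (.n (.n (.l []) (.l [0])) (.l [])) (.n (.l []) (.n (.l []) (.l [0])))))))))
  pj := [2050, 67111426, 1126312229994881, 2462931817595201, 4403415318572, 550426923036, 134238236, 4124]

def E : Emc where
  nv := 18
  A := 0x30342e25313522332c2d2b201f281d163223242f132a2910271c0e091917182607062111121e051b0d04010a1a0015140f0c02030b08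
  ln := [5, 5, 5, 6, 6, 5]
  par := [(0, 0), (0, 1), (0, 2), (0, 3), (0, 4), (2, 3)]
  cod := [[3, 0, 6, 18, 15], [8, 1, 9, 24, 21], [20, 7, 22, 36, 33], [17, 19, 34, 45, 42, 30], [5, 16, 31, 39, 27, 12], [35, 37, 48, 51, 47]]
  rep := [(0, 1), (0, 0), (0, 2), (1, 2), (4, 5), (0, 4), (0, 3), (1, 4), (1, 3), (4, 4), (3, 5), (2, 4), (2, 3), (4, 3), (3, 4), (3, 3), (5, 2), (5, 3)]
  stp := [(0, 0, 0, 0, 0), (0, 0, 1, 0, 0), (0, 0, 2, 0, 0), (0, 0, 3, 0, 0), (0, 0, 4, 0, 0), (1, 1, 0, 0, 1), (2, 1, 1, 0, 1), (0, 1, 2, 0, 0), (0, 1, 3, 0, 0), (0, 1, 4, 0, 0), (1, 2, 0, 0, 2), (2, 2, 1, 0, 2), (3, 2, 2, 1, 4), (0, 2, 3, 0, 0), (0, 2, 4, 0, 0), (1, 3, 0, 0, 3), (2, 3, 1, 0, 3), (3, 3, 2, 2, 4), (0, 3, 3, 0, 0), (0, 3, 4, 0, 0), (0, 3, 5, 0, 0), (1, 4, 0, 0, 4), (2, 4, 1, 0, 4), (3, 4, 2, 3, 5), (0, 4, 3, 0, 0), (0, 4, 4, 0, 0), (0, 4, 5, 0, 0), (1, 5, 0, 2, 3), (2, 5, 1, 2, 3), (0, 5, 2, 0, 0), (0, 5, 3, 0, 0), (4, 5, 4, 3, 2)]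
  prs := [(0, 0, 1, 1, 0, 0, 0, 0), (0, 0, 2, 2, 0, 0, 0, 0), (0, 1, 2, 4, 1, 0, 0, 0), (0, 0, 3, 3, 0, 0, 0, 0), (1, 1, 3, 2, 1, 4, 4, 1), (0, 2, 3, 4, 1, 0, 0, 0), (0, 0, 4, 4, 0, 0, 0, 0), (1, 1, 4, 0, 1, 4, 0, 0), (1, 2, 4, 3, 1, 5, 4, 1), (0, 3, 4, 5, 1, 0, 0, 0), (1, 0, 5, 3, 0, 2, 3, 4), (1, 1, 5, 2, 1, 3, 4, 0), (0, 2, 5, 3, 0, 0, 0, 0), (0, 3, 5, 2, 4, 0, 0, 0), (1, 4, 5, 3, 5, 2, 1, 4)]
  exc := []

theorem c_emb : E.check = true := by decide +kernel

theorem c_wf : wfA X.nv X.A X.legs = true := by decide +kernel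

theorem c_a1 : alln (fun q => Nat.beq (fld X.A1 q) (cond (Nat.beq (fld X.A q) q) 0 (Nat.succ (fld X.A q)))) (Nat.mul 3 X.nv)
    = true := by decide +kernel

theorem c_bad : badT X.legs false false X.R = true := by decide +kernel

theorem c_rc : ringc X.nv X.A X.legs = true := by decide +kernel

theorem c_rj : ringj X.nv X.A X.legs X.pj = true := by decide +kernel

theorem c_main : Fk.dfs X.nv X.phi0 X.A1 X.legs [] (len X.legs) 0 (.l X.R) 0 0 0
    (Fk.mkT X.A1 X.nv X.legs X.legs true (Fk.gn X.A1 X.nv 0 0 [])) X.ones true true = true := by decide +kernel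

theorem c_trip : Fk.tripS (Nat.sub (len X.legs) 1) (Fk.ta X.ones) (Fk.tb X.ones) = true := by decide +kernel

theorem ok : X.Ok := ⟨c_wf, c_a1, c_bad, c_rc, c_rj, c_main, c_trip⟩

end Pool.Agent.UH.V5566x5
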