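import Pool.Agent.UH.Fk

set_option autoImplicit false
set_option maxRecDepth 100000
set_option maxHeartbeats 0

namespace Pool.Agent.UH.V5655x6

def X : Fk.CertF where
  nv := 18
  A := 0x30342f2b3135332e28243223222d2016252c2a2913271d101f1c0e091917182607062111121e051b0d04010a1a0015140f0c02030b08
  A1 := 0x3100302c0036340029253324232e2117002d2b2a14281e1120000f0a0018192708072212131f061c000502001b011615100d03040c09
  legs := [(10, 8748), (25, 2916), (37, 972), (49, 324), (52, 108), (46, 36), (28, 12), (13, 4)]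
  R := 0x40000000000070b0d0e00000000000a06020a00000ed0e10000000000000000000000000000000000000000000000000000000000000000000000000000000000000000000000000000000000000000000000000000000000000000000000000000000000000000000000000000000000000000000000000000000000000000000000000000000000000000000000000000000000000000000000000000000000000500000000000909060600000000000d050609200001509e0000000400000000000e040b0b00000000000000000000000000000a0907010f0200000d07740d9b00000000000c02020020000b60490c040b030807000a0708de06a300000e000e050d0c3d000f24000b0000000000000000000000000000000000000000000000000000000000000000000000000000000000000000000000000000000000000000000000000000000000000000000000000000000000000000000000000000000000000000000000000000000000000000000000000000000000000000000000000000000000000000000000000000000000000c000000000007000b00b000000000010d0407b0000e605100000006000000000004040505b000000000000000000000000000000b0c05980500090a03c70940000000000005020208600007a0650403060d4803000d0700ec0ec200000660860cf80f9d00c1700400000000000000000000000000000000000000000000000000000000000000000000000000000000000000000000070c0804d0000c10b10e080409f90d00060201870233000002c0ad0c260c6000e9bf04040000000000000000000000000000000cf03e070b07ea00c1a8050e0000000000a13e080a000a06000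
  phi0 := 16
  ones := (.n (.n (.n (.n (.n (.n (.l []) (.n (.l []) (.n (.l [0]) (.l [])))) (.n (.l []) (.n (.l []) (.n (.l []) (.l [14]))))) (.n (.n (.l []) (.n (.l []) (.n (.l []) (.l [15])))) (.n (.n (.l []) (.n (.l []) (.l [9]))) (.n (.l []) (.n (.l [1]) (.l [])))))) (.n (.n (.n (.n (.n (.l []) (.l [10])) (.n (.l [8]) (.l []))) (.n (.n (.l [0]) (.l [])) (.n (.l []) (.l [2])))) (.n (.l []) (.n (.n (.l []) (.l [14])) (.n (.l [14]) (.l []))))) (.n (.n (.l []) (.n (.l []) (.n (.l [2]) (.l [])))) (.n (.n (.n (.l []) (.l [10])) (.n (.l [9]) (.l []))) (.n (.n (.l [2]) (.l [])) (.n (.l []) (.l [15]))))))) (.n (.n (.n (.l []) (.n (.l []) (.n (.n (.l []) (.l [8])) (.l [])))) (.n (.n (.l []) (.n (.n (.l []) (.l [10])) (.l []))) (.n (.n (.n (.l []) (.l [6])) (.l [])) (.l [])))) (.n (.n (.n (.l []) (.n (.n (.l []) (.l [4])) (.n (.l [0]) (.l [])))) (.l [])) (.n (.l []) (.n (.l []) (.n (.n (.l []) (.l [5, 14])) (.n (.l [2]) (.l [])))))))) (.n (.n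 (.n (.n (.n (.n (.n (.l []) (.l [2])) (.l [])) (.l [])) (.n (.l []) (.n (.n (.l []) (.l [15])) (.l [])))) (.n (.n (.l []) (.n (.l []) (.n (.l [7]) (.l [])))) (.n (.n (.n (.l []) (.l [8])) (.l [])) (.l [])))) (.n (.n (.n (.n (.n (.l [3]) (.l [])) (.n (.l []) (.l [12]))) (.n (.n (.l []) (.l [2])) (.n (.l [13]) (.l [])))) (.n (.l []) (.n (.n (.l [15]) (.l [])) (.n (.l []) (.l [15]))))) (.n (.n (.n (.n (.l []) (.l [14])) (.n (.l [12]) (.l []))) (.l [])) (.n (.n (.n (.l [11]) (.l [])) (.n (.l []) (.l [11]))) (.n (.n (.l []) (.l [3, 6])) (.n (.l [0, 15]) (.l []))))))) (.n (.n (.n (.n (.l []) (.n (.n (.l []) (.l [11])) (.n (.l [6]) (.l [])))) (.n (.l []) (.n (.n (.l [3]) (.l [])) (.n (.l []) (.l [7, 15]))))) (.n (.n (.l []) (.n (.n (.l [8]) (.l [])) (.n (.l []) (.l [1, 6])))) (.n (.n (.n (.l [5]) (.l [])) (.n (.l []) (.l [9, 14]))) (.n (.n (.l []) (.l [2, 13])) (.n (.l [7]) (.l [])))))) (.n (.n (.n (.n (.n (.l []) (.l [4, 15])) (.n (.l [0]) (.l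 []))) (.n (.n (.l [0]) (.l [])) (.n (.l []) (.l [2])))) (.n (.l []) (.n (.n (.l []) (.l [1, 3])) (.n (.l [7]) (.l []))))) (.n (.n (.l []) (.n (.n (.l []) (.l [9, 13])) (.n (.l [4]) (.l [])))) (.n (.n (.n (.l []) (.l [4, 6])) (.n (.l [1, 2]) (.l []))) (.n (.n (.l [2]) (.l [])) (.n (.l []) (.l [15])))))))))
  pj := [2050, 67111426, 274884198785, 1139136997622081, 2431045980389697, 38508678349121, 134238236, 4124]

def E : Emc where
  nv := 18
  A := 0x30342f2b3135332e28243223222d2016252c2a2913271d101f1c0e091917182607062111121e051b0d04010a1a0015140f0c02030b08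
  ln := [5, 5, 6, 5, 5, 6]
  par := [(0, 0), (0, 1), (0, 2), (0, 3), (0, 4), (2, 4)]
  cod := [[3, 0, 6, 18, 15], [8, 1, 9, 24, 21], [20, 7, 22, 36, 42, 33], [17, 19, 34, 39, 30], [5, 16, 31, 27, 12], [35, 43, 48, 51, 45, 41]]
  rep := [(0, 1), (0, 0), (0, 2), (1, 2), (4, 4), (0, 4), (0, 3), (1, 4), (1, 3), (4, 3), (3, 4), (2, 5), (2, 3), (3, 3), (2, 4), (5, 4), (5, 2), (5, 3)]
  stp := [(0, 0, 0, 0, 0), (0, 0, 1, 0, 0), (0, 0, 2, 0, 0), (0, 0, 3, 0, 0), (0, 0, 4, 0, 0), (1, 1, 0, 0, 1), (2, 1, 1, 0, 1), (0, 1, 2, 0, 0), (0, 1, 3, 0, 0), (0, 1, 4, 0, 0), (1, 2, 0, 0, 2), (2, 2, 1, 0, 2), (3, 2, 2, 1, 4), (0, 2, 3, 0, 0), (0, 2, 4, 0, 0), (0, 2, 5, 0, 0), (1, 3, 0, 0, 3), (2, 3, 1, 0, 3), (3, 3, 2, 2, 5), (0, 3, 3, 0, 0), (0, 3, 4, 0, 0), (1, 4, 0, 0, 4), (2, 4, 1, 0, 4), (3, 4, 2, 3, 4), (0, 4, 3, 0, 0), (0, 4, 4, 0, 0), (1, 5, 0, 2, 4), (2, 5, 1, 2, 4), (0, 5, 2, 0, 0), (0, 5, 3, 0, 0), (0, 5, 4, 0, 0), (4, 5, 5, 3, 2)]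
  prs := [(0, 0, 1, 1, 0, 0, 0, 0), (0, 0, 2, 2, 0, 0, 0, 0), (0, 1, 2, 4, 1, 0, 0, 0), (0, 0, 3, 3, 0, 0, 0, 0), (1, 1, 3, 2, 1, 5, 4, 1), (0, 2, 3, 5, 1, 0, 0, 0), (0, 0, 4, 4, 0, 0, 0, 0), (1, 1, 4, 0, 1, 4, 0, 0), (1, 2, 4, 3, 1, 4, 5, 1), (0, 3, 4, 4, 1, 0, 0, 0), (1, 0, 5, 3, 0, 2, 3, 5), (1, 1, 5, 2, 1, 4, 4, 0), (0, 2, 5, 4, 0, 0, 0, 0), (0, 3, 5, 2, 5, 0, 0, 0), (1, 4, 5, 3, 4, 2, 1, 5)]
  exc := []

theorem c_emb : E.check = true := by decide +kernel

theorem c_wf : wfA X.nv X.A X.legs = true := by decide +kernel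

theorem c_a1 : alln (fun q => Nat.beq (fld X.A1 q) (cond (Nat.beq (fld X.A q) q) 0 (Nat.succ (fld X.A q)))) (Nat.mul 3 X.nv)
    = true := by decide +kernel

theorem c_bad : badT X.legs false false X.R = true := by decide +kernel

theorem c_rc : ringc X.nv X.A X.legs = true := by decide +kernel

theorem c_rj : ringj X.nv X.A X.legs X.pj = true := by decide +kernel

theorem c_main : Fk.dfs X.nv X.phi0 X.A1 X.legs [] (len X.legs) 0 (.l X.R) 0 0 0
    (Fk.mkT X.A1 X.nv X.legs X.legs true (Fk.gn X.A1 X.nv 0 0 [])) X.ones true true = true := by decide +kernel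

theorem c_trip : Fk.tripS (Nat.sub (len X.legs) 1) (Fk.ta X.ones) (Fk.tb X.ones) = true := by decide +kernel

theorem ok : X.Ok := ⟨c_wf, c_a1, c_bad, c_rc, c_rj, c_main, c_trip⟩

end Pool.Agent.UH.V5655x6
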