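import Pool.Agent.UH.Fk

set_option autoImplicit false
set_option maxRecDepth 100000
set_option maxHeartbeats 0

namespace Pool.Agent.UH.V5656x5

def X : Fk.CertF where
  nv := 18
  A := 0x2e343233312b2435232230201f281d16252f2d2c132a2910271c0e091917182607062111121e051b0d04010a1a0015140f0c02030b08
  A1 := 0x2f003334002c25362423312120001e1700302e2d142b2a1128000f0a0018192708072212131f061c000502001b011615100d03040c09
  legs := [(10, 10935), (25, 3645), (37, 1215), (52, 405), (49, 135), (40, 45), (28, 15), (13, 5)]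
  R := 0x1800000000000002c0d02a000c00000000000090120983bc000007f809800000000000000000000000000000000000000000000000000000000000000000000000000000000000000000000000000000000000000000000000000000000000000000000000000000000000000000000000000000000000000000000000000000000000000000000000000000000000000000000000000000000000000000000000000000000000000000000000000000000000000000000000000000000000000000000000000000000002000000000000003e02838050c000000000000803c0002bf000005080b4800000000d0000000000000018320080020000000000000000000000000000000000080300081e0b0080000c05802b382d2a8000000000000008020a01e000000f440be0180201e038220b0000c0200e134014fc0000000a80a080f42824e1800527c40a8020000000000000000000000000000000000000000000000000000000000000000000000000000000000000000000000000000000000000000000000000000000000000000000000000000000000000000000000000000000000000000000000000000000000000000000000000000000000000000000000000000000000000000000000000000000000000000000000000000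000000000000000000000000000000000000000000000000000000480000000000000a03a0300120000000000001e0a03e057c000023a0178000000000600000000000002a0e014057c000000000000000000000000000000000028028220db1c04800018220430400c780000000000000020c01a06f8000023f06a40800c0f807fb0080001c0c00e488123100000038c06400d84a0f0520054a058180b800000000000000000000000000000000000000000000000000000000000000000000000000000000000000000000000000000000000000000e0140580430000051808280c0c02a003560d0000702c011d20b510000000bcc09b0061280cfd000397660d8040000000000000000000000000000000000000008d04cc0f3720fae200385c38120c8000000000001a32a2048020000a010020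
  phi0 := 32
  ones := (.n (.n (.n (.n (.n (.l []) (.n (.l []) (.n (.n (.l [26]) (.l [])) (.n (.l []) (.l [23]))))) (.l [])) (.n (.n (.n (.n (.n (.l []) (.l [30])) (.l [])) (.n (.n (.l [31]) (.l [])) (.n (.l []) (.l [7, 12])))) (.n (.n (.n (.l [21]) (.l [])) (.n (.l []) (.l [20]))) (.n (.l []) (.n (.l [30]) (.l []))))) (.n (.n (.n (.l []) (.n (.l []) (.l [28]))) (.n (.n (.l []) (.l [6])) (.n (.l [5]) (.l [])))) (.n (.n (.n (.l []) (.l [22])) (.l [])) (.n (.n (.l [29, 30]) (.l [])) (.n (.l []) (.l [10, 14, 18, 21]))))))) (.n (.n (.n (.l []) (.n (.n (.l []) (.n (.l []) (.l [6]))) (.n (.n (.l []) (.l [29])) (.n (.l [15]) (.l []))))) (.l [])) (.n (.n (.n (.n (.l []) (.n (.l []) (.l [12]))) (.n (.n (.l []) (.l [19])) (.n (.l [30]) (.l [])))) (.n (.n (.n (.l []) (.l [0])) (.l [])) (.n (.n (.l [28]) (.l [])) (.n (.l []) (.l [19, 29]))))) (.n (.l []) (.n (.n (.l []) (.n (.l []) (.l [6, 31]))) (.n (.n (.l []) (.l [6, 25])) (.n (.l [6, 23]) (.l [])))))))) (.n (.n (.n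 (.n (.n (.n (.n (.l []) (.l [8])) (.l [])) (.n (.l []) (.n (.l []) (.l [15])))) (.l [])) (.n (.n (.n (.l []) (.n (.l []) (.l [30]))) (.n (.n (.l []) (.l [1])) (.n (.l [29]) (.l [])))) (.n (.n (.n (.l []) (.l [0])) (.l [])) (.n (.n (.l [24]) (.l [])) (.n (.l []) (.l [26, 30])))))) (.n (.n (.n (.n (.n (.l [23]) (.l [])) (.n (.l []) (.l [23]))) (.n (.l []) (.n (.l [23]) (.l [])))) (.n (.n (.n (.l []) (.l [12])) (.l [])) (.n (.n (.l [12]) (.l [])) (.n (.l []) (.l [14, 15]))))) (.n (.n (.n (.n (.l []) (.l [12])) (.l [])) (.n (.n (.l [5]) (.l [])) (.n (.l []) (.l [9, 25])))) (.n (.n (.n (.l [22]) (.l [])) (.n (.l []) (.l [7, 21]))) (.n (.n (.l []) (.l [29])) (.n (.l [14, 21]) (.l []))))))) (.n (.n (.n (.l []) (.n (.n (.n (.l []) (.l [22])) (.l [])) (.n (.n (.l [3]) (.l [])) (.n (.l []) (.l [29, 31]))))) (.l [])) (.n (.n (.n (.n (.n (.l []) (.l [19, 22])) (.l [])) (.n (.n (.l [17]) (.l [])) (.n (.l []) (.l [12, 18, 21, 24])))) (.n (.n (.n (.l [10]) (.l [])) (.n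 (.l []) (.l [8, 31]))) (.n (.n (.l []) (.l [17])) (.n (.l [2, 28]) (.l []))))) (.n (.n (.n (.l []) (.n (.l []) (.l [12, 24]))) (.n (.n (.l []) (.l [13, 17])) (.n (.l [5, 23]) (.l [])))) (.n (.n (.n (.l []) (.l [19, 23, 27])) (.l [])) (.n (.n (.l [4, 10, 25]) (.l [])) (.n (.l []) (.l [5, 8, 9, 23, 24, 25, 26])))))))))
  pj := [2050, 67111426, 274884198785, 9112795322253633, 307889027154241, 550426923036, 134238236, 4124]

def E : Emc where
  nv := 18
  A := 0x2e343233312b2435232230201f281d16252f2d2c132a2910271c0e091917182607062111121e051b0d04010a1a0015140f0c02030b08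
  ln := [5, 5, 6, 5, 6, 5]
  par := [(0, 0), (0, 1), (0, 2), (0, 3), (0, 4), (2, 4)]
  cod := [[3, 0, 6, 18, 15], [8, 1, 9, 24, 21], [20, 7, 22, 36, 45, 33], [17, 19, 34, 42, 30], [5, 16, 31, 39, 27, 12], [35, 46, 51, 48, 44]]
  rep := [(0, 1), (0, 0), (0, 2), (1, 2), (4, 5), (0, 4), (0, 3), (1, 4), (1, 3), (4, 4), (3, 4), (2, 5), (2, 3), (4, 3), (3, 3), (2, 4), (5, 3), (5, 2)]
  stp := [(0, 0, 0, 0, 0), (0, 0, 1, 0, 0), (0, 0, 2, 0, 0), (0, 0, 3, 0, 0), (0, 0, 4, 0, 0), (1, 1, 0, 0, 1), (2, 1, 1, 0, 1), (0, 1, 2, 0, 0), (0, 1, 3, 0, 0), (0, 1, 4, 0, 0), (1, 2, 0, 0, 2), (2, 2, 1, 0, 2), (3, 2, 2, 1, 4), (0, 2, 3, 0, 0), (0, 2, 4, 0, 0), (0, 2, 5, 0, 0), (1, 3, 0, 0, 3), (2, 3, 1, 0, 3), (3, 3, 2, 2, 5), (0, 3, 3, 0, 0), (0, 3, 4, 0, 0), (1, 4, 0, 0, 4), (2, 4, 1, 0, 4), (3, 4, 2, 3, 4), (0, 4, 3, 0, 0), (0, 4, 4, 0, 0), (0, 4, 5, 0, 0), (1, 5, 0, 2, 4), (2, 5, 1, 2, 4), (0, 5, 2, 0, 0), (0, 5, 3, 0, 0), (4, 5, 4, 3, 2)]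
  prs := [(0, 0, 1, 1, 0, 0, 0, 0), (0, 0, 2, 2, 0, 0, 0, 0), (0, 1, 2, 4, 1, 0, 0, 0), (0, 0, 3, 3, 0, 0, 0, 0), (1, 1, 3, 2, 1, 5, 4, 1), (0, 2, 3, 5, 1, 0, 0, 0), (0, 0, 4, 4, 0, 0, 0, 0), (1, 1, 4, 0, 1, 4, 0, 0), (1, 2, 4, 3, 1, 4, 5, 1), (0, 3, 4, 4, 1, 0, 0, 0), (1, 0, 5, 3, 0, 2, 3, 4), (1, 1, 5, 2, 1, 4, 4, 0), (0, 2, 5, 4, 0, 0, 0, 0), (0, 3, 5, 2, 4, 0, 0, 0), (1, 4, 5, 3, 4, 2, 1, 4)]
  exc := []

theorem c_emb : E.check = true := by decide +kernel

theorem c_wf : wfA X.nv X.A X.legs = true := by decide +kernel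

theorem c_a1 : alln (fun q => Nat.beq (fld X.A1 q) (cond (Nat.beq (fld X.A q) q) 0 (Nat.succ (fld X.A q)))) (Nat.mul 3 X.nv)
    = true := by decide +kernel

theorem c_bad : badT X.legs false false X.R = true := by decide +kernel

theorem c_rc : ringc X.nv X.A X.legs = true := by decide +kernel

theorem c_rj : ringj X.nv X.A X.legs X.pj = true := by decide +kernel

theorem c_main : Fk.dfs X.nv X.phi0 X.A1 X.legs [] (len X.legs) 0 (.l X.R) 0 0 0
    (Fk.mkT X.A1 X.nv X.legs X.legs true (Fk.gn X.A1 X.nv 0 0 [])) X.ones true true = true := by decide +kernel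

theorem c_trip : Fk.tripS (Nat.sub (len X.legs) 1) (Fk.ta X.ones) (Fk.tb X.ones) = true := by decide +kernel

theorem ok : X.Ok := ⟨c_wf, c_a1, c_bad, c_rc, c_rj, c_main, c_trip⟩

end Pool.Agent.UH.V5656x5
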