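import Pool.Agent.UH.Fk

set_option autoImplicit false
set_option maxRecDepth 100000
set_option maxHeartbeats 0

namespace Pool.Agent.UH.V5665x5

def X : Fk.CertF where
  nv := 18
  A := 0x2e343233312b2435232230292a282016252f2d2c13271d101f1c0e091917182607062111121e051b0d04010a1a0015140f0c02030b08
  A1 := 0x2f003334002c25362423312a2b00211700302e2d14281e1120000f0a0018192708072212131f061c000502001b011615100d03040c09
  legs := [(10, 13122), (25, 4374), (37, 1458), (52, 486), (49, 162), (40, 54), (28, 18), (13, 6)]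
  R := 0xd800000000000000005c0200400e40000000000000000a803c08408440000001b7012080000000000000000000000000000000000000000000000000000000000000000000000000000000000000000000000000000000000000000000000000000000000000000000000000000000000000000000000000000000000000000000000000000000000000000000000000000000000000000000000000000000000000000000000000000000000000000000000000000000000000000000000000000000000000000000000000000000000000000000000000000000000000000000000000000000000000000000000000000000280000000000000000fc0d006c03650000000000000007c0f00880dbd00000007403a300000000000ec0000000000000000480e40cc069e000000000000000000000000000000000000000000dc0980d007fd3800c0000580e00adeec0091940000000000000000f80ec0e801a8000000033033d80e40200cc03175c088000028078093c9408669400000008eb01d8c053e2001475800228ad780b407800000000000000000000000000000000000000000000000000000000000000000000000000000000000000000000000000000000000000000000000000000000000000000000000000000000000000000000000000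00000000000000000000000000000000000000000000000000000000000000000000000000000000000000000000000000000000000000000000000000000000000000000000000000000000000000000000000000000000000000000000000000000000000000000000000000000000000000000000000000000100000000000000000e00600fc052f000000000000000580d80c405a20000003b00380c0000000000840000000000000000680680b80dd1000000000000000000000000000000000000000000ac0100e003813c0bc0000080680e32b4038bdc0000000000000000a80200b40b18000000dd800c8801c03008805419c0ec0000d80b808df0806d4b80000000f9b03ee80a93300f32bc000557fa80780b800000000000000000000000000000000000000000000000000000000000000000000000000000000000000000000000000000000000000000000000000000000000000004c0b00c0044700000002802f080c4070050042af40a400006000c006ebc087880000000088302120035b380db3780023c12b8004040000000000000000000000000000000000000000000000009e039240ce9080e03fc0030056700900180000000000000020a0e4402801400001c0700d80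
  phi0 := 64
  ones := (.n (.n (.n (.n (.n (.l []) (.n (.n (.l []) (.n (.l [48]) (.l []))) (.n (.l []) (.n (.l []) (.l [11]))))) (.n (.n (.l []) (.n (.n (.l [33]) (.l [])) (.n (.l []) (.l [2])))) (.n (.n (.l []) (.n (.l []) (.l [12]))) (.n (.l []) (.n (.l [51]) (.l [])))))) (.n (.n (.n (.n (.l []) (.n (.l [22]) (.l []))) (.l [])) (.n (.n (.n (.l [19]) (.l [])) (.n (.l []) (.l [15]))) (.n (.n (.l []) (.l [20])) (.l [])))) (.n (.n (.n (.l []) (.n (.l []) (.l [25]))) (.n (.n (.l []) (.l [55])) (.n (.l [38]) (.l [])))) (.n (.n (.l []) (.n (.l [9, 32]) (.l []))) (.n (.n (.l [36]) (.l [])) (.n (.l []) (.l [45, 55, 60]))))))) (.n (.n (.n (.n (.l []) (.n (.n (.l [47]) (.l [])) (.n (.l []) (.l [5])))) (.n (.l []) (.n (.n (.l []) (.l [16])) (.l [])))) (.n (.n (.n (.n (.l [59]) (.l [])) (.n (.l []) (.l [46]))) (.n (.n (.l []) (.l [4])) (.n (.l [59]) (.l [])))) (.n (.n (.n (.l []) (.l [36])) (.l [])) (.n (.n (.l [25, 56]) (.l [])) (.n (.l []) (.l [28, 32, 51])))))) (.n (.n (.n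 (.l []) (.n (.n (.l []) (.l [46])) (.l []))) (.n (.n (.n (.l []) (.l [50])) (.n (.l [37]) (.l []))) (.n (.n (.l [11]) (.l [])) (.n (.l []) (.l [16, 39]))))) (.n (.l []) (.n (.n (.n (.l [39]) (.l [])) (.n (.l []) (.l [22, 57]))) (.n (.n (.l []) (.l [16, 41])) (.n (.l [5, 35]) (.l [])))))))) (.n (.n (.n (.n (.n (.l []) (.n (.l []) (.n (.l []) (.l [26])))) (.n (.l []) (.n (.n (.l []) (.l [55])) (.l [])))) (.n (.n (.n (.l []) (.n (.l []) (.l [34]))) (.n (.n (.l []) (.l [20])) (.n (.l [21]) (.l [])))) (.n (.n (.l []) (.n (.l [33]) (.l []))) (.n (.l []) (.n (.l []) (.l [30, 40, 48])))))) (.n (.n (.n (.l []) (.n (.l []) (.n (.l [7]) (.l [])))) (.n (.n (.n (.l []) (.l [8])) (.n (.l [47]) (.l []))) (.n (.n (.l [33]) (.l [])) (.n (.l []) (.l [37, 53]))))) (.n (.n (.n (.n (.l []) (.l [34])) (.n (.l [58]) (.l []))) (.n (.n (.l [0]) (.l [])) (.n (.l []) (.l [36, 61])))) (.n (.n (.l []) (.n (.l []) (.l [12]))) (.n (.n (.l []) (.l [20, 28])) (.n (.l [20, 57]) (.l []))))))) (.n (.n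 (.n (.l []) (.n (.n (.n (.l []) (.l [57])) (.n (.l [8]) (.l []))) (.n (.n (.l [39]) (.l [])) (.n (.l []) (.l [5, 53]))))) (.n (.n (.l []) (.n (.n (.l [23]) (.l [])) (.n (.l []) (.l [19])))) (.n (.n (.n (.l [18]) (.l [])) (.n (.l []) (.l [24, 45]))) (.n (.n (.l []) (.l [11])) (.n (.l [14, 56]) (.l [])))))) (.n (.n (.n (.n (.n (.l []) (.l [48])) (.n (.l [30]) (.l []))) (.l [])) (.n (.n (.n (.l [21]) (.l [])) (.n (.l []) (.l [46]))) (.n (.n (.l []) (.l [36, 48])) (.l [])))) (.n (.n (.n (.n (.l [28]) (.l [])) (.n (.l []) (.l [25, 47]))) (.n (.n (.l []) (.l [22, 58])) (.n (.l [15, 45]) (.l [])))) (.n (.n (.n (.l []) (.l [26, 54, 56])) (.n (.l [21, 40, 61]) (.l []))) (.n (.n (.l [33, 39, 45]) (.l [])) (.n (.l []) (.l [7, 22, 40, 57])))))))))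
  pj := [2050, 67111426, 274884198785, 9112795322253633, 307889027154241, 555124621356, 134238236, 4124]

def E : Emc where
  nv := 18
  A := 0x2e343233312b2435232230292a282016252f2d2c13271d101f1c0e091917182607062111121e051b0d04010a1a0015140f0c02030b08
  ln := [5, 5, 6, 6, 5, 5]
  par := [(0, 0), (0, 1), (0, 2), (0, 3), (0, 4), (2, 4)]
  cod := [[3, 0, 6, 18, 15], [8, 1, 9, 24, 21], [20, 7, 22, 36, 45, 33], [17, 19, 34, 42, 39, 30], [5, 16, 31, 27, 12], [35, 46, 51, 48, 44]]
  rep := [(0, 1), (0, 0), (0, 2), (1, 2), (4, 4), (0, 4), (0, 3), (1, 4), (1, 3), (4, 3), (3, 5), (2, 5), (2, 3), (3, 4), (3, 3), (2, 4), (5, 3), (5, 2)]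
  stp := [(0, 0, 0, 0, 0), (0, 0, 1, 0, 0), (0, 0, 2, 0, 0), (0, 0, 3, 0, 0), (0, 0, 4, 0, 0), (1, 1, 0, 0, 1), (2, 1, 1, 0, 1), (0, 1, 2, 0, 0), (0, 1, 3, 0, 0), (0, 1, 4, 0, 0), (1, 2, 0, 0, 2), (2, 2, 1, 0, 2), (3, 2, 2, 1, 4), (0, 2, 3, 0, 0), (0, 2, 4, 0, 0), (0, 2, 5, 0, 0), (1, 3, 0, 0, 3), (2, 3, 1, 0, 3), (3, 3, 2, 2, 5), (0, 3, 3, 0, 0), (0, 3, 4, 0, 0), (0, 3, 5, 0, 0), (1, 4, 0, 0, 4), (2, 4, 1, 0, 4), (3, 4, 2, 3, 5), (0, 4, 3, 0, 0), (0, 4, 4, 0, 0), (1, 5, 0, 2, 4), (2, 5, 1, 2, 4), (0, 5, 2, 0, 0), (0, 5, 3, 0, 0), (4, 5, 4, 3, 2)]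
  prs := [(0, 0, 1, 1, 0, 0, 0, 0), (0, 0, 2, 2, 0, 0, 0, 0), (0, 1, 2, 4, 1, 0, 0, 0), (0, 0, 3, 3, 0, 0, 0, 0), (1, 1, 3, 2, 1, 5, 4, 1), (0, 2, 3, 5, 1, 0, 0, 0), (0, 0, 4, 4, 0, 0, 0, 0), (1, 1, 4, 0, 1, 4, 0, 0), (1, 2, 4, 3, 1, 5, 5, 1), (0, 3, 4, 5, 1, 0, 0, 0), (1, 0, 5, 3, 0, 2, 3, 4), (1, 1, 5, 2, 1, 4, 4, 0), (0, 2, 5, 4, 0, 0, 0, 0), (0, 3, 5, 2, 4, 0, 0, 0), (1, 4, 5, 3, 5, 2, 1, 4)]
  exc := []

theorem c_emb : E.check = true := by decide +kernel

theorem c_wf : wfA X.nv X.A X.legs = true := by decide +kernel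

theorem c_a1 : alln (fun q => Nat.beq (fld X.A1 q) (cond (Nat.beq (fld X.A q) q) 0 (Nat.succ (fld X.A q)))) (Nat.mul 3 X.nv)
    = true := by decide +kernel

theorem c_bad : badT X.legs false false X.R = true := by decide +kernel

theorem c_rc : ringc X.nv X.A X.legs = true := by decide +kernel

theorem c_rj : ringj X.nv X.A X.legs X.pj = true := by decide +kernel

theorem c_main : Fk.dfs X.nv X.phi0 X.A1 X.legs [] (len X.legs) 0 (.l X.R) 0 0 0
    (Fk.mkT X.A1 X.nv X.legs X.legs true (Fk.gn X.A1 X.nv 0 0 [])) X.ones true true = true := by decide +kernel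

theorem c_trip : Fk.tripS (Nat.sub (len X.legs) 1) (Fk.ta X.ones) (Fk.tb X.ones) = true := by decide +kernel

theorem ok : X.Ok := ⟨c_wf, c_a1, c_bad, c_rc, c_rj, c_main, c_trip⟩

end Pool.Agent.UH.V5665x5
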