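import Pool.Agent.UH.Fk

set_option autoImplicit false
set_option maxRecDepth 100000
set_option maxHeartbeats 0

namespace Pool.Agent.UH.V6556x5

def X : Fk.CertF where
  nv := 18
  A := 0x30342e2831352233201f2b1d163223182517272f132d2c102a1c0e091926242907062111121e051b0d04010a1a0015140f0c02030b08
  A1 := 0x31002f29003623342120001e1733241900182830142e2d112b000f0a0027252a08072212131f061c000502001b011615100d03040c09
  legs := [(10, 4374), (25, 1458), (37, 486), (49, 162), (52, 54), (43, 18), (28, 6), (13, 2)]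
  R := 0x8800808000000000000000000000000000000000000000000000000000000000000000000000000000000000000000000000000000000000000000000000000000000000000000000000000444000000008d00c08000000000440100000000000000004400000541400000004100100c04888088c04c00000a498298480000000000000000000000000000000000000000000000000000000000000000000000000000000000000000000000000000000000000000000000000000000000000000004000004040000000044001140000000004401000000000000008085c004c18180000004450050484498c0ccc01c00404101011000000000000000000000000000000000000000000000000040500a2c4487880cce48c00834e088050440000000000000009205040064840000248400040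
  phi0 := 4
  ones := (.n (.n (.n (.n (.l []) (.n (.l []) (.n (.l []) (.n (.n (.l []) (.l [1])) (.l []))))) (.n (.n (.l []) (.n (.n (.l []) (.n (.l []) (.l [2]))) (.n (.n (.l []) (.l [1])) (.n (.l [3]) (.l []))))) (.l []))) (.n (.l []) (.n (.n (.n (.l []) (.n (.n (.l []) (.l [0])) (.l []))) (.n (.n (.n (.l []) (.l [1])) (.l [])) (.n (.l []) (.n (.l []) (.l [3]))))) (.n (.n (.l []) (.n (.n (.l [1]) (.l [])) (.n (.l []) (.l [0])))) (.n (.l []) (.n (.n (.l []) (.l [0])) (.l []))))))) (.n (.n (.n (.l []) (.n (.n (.n (.l []) (.n (.l []) (.l [2]))) (.n (.n (.l []) (.l [0])) (.n (.l [3]) (.l [])))) (.l []))) (.n (.n (.n (.n (.l []) (.n (.l []) (.l [2]))) (.n (.l []) (.n (.l [0]) (.l [])))) (.n (.n (.n (.l []) (.l [1])) (.l [])) (.n (.l []) (.n (.l []) (.l [3]))))) (.n (.n (.l []) (.n (.n (.l [1]) (.l [])) (.n (.l []) (.l [1, 2])))) (.n (.n (.n (.l [0]) (.l [])) (.n (.l []) (.l [0, 2]))) (.n (.l []) (.n (.l [1, 2]) (.l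 []))))))) (.n (.n (.n (.n (.l []) (.n (.n (.l []) (.l [0])) (.l []))) (.n (.n (.n (.l []) (.l [0])) (.l [])) (.n (.l []) (.n (.l []) (.l [2]))))) (.n (.n (.l []) (.n (.n (.l [0]) (.l [])) (.n (.l []) (.l [1])))) (.n (.l []) (.n (.n (.l []) (.l [2, 3])) (.l []))))) (.n (.n (.l []) (.n (.n (.l []) (.n (.l []) (.l [0, 2]))) (.n (.n (.l []) (.l [2, 3])) (.n (.l [1]) (.l []))))) (.n (.n (.n (.l []) (.n (.l []) (.l [3]))) (.n (.n (.l []) (.l [1])) (.n (.l [2]) (.l [])))) (.l []))))))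
  pj := [2050, 67111426, 68729962881, 1129198448017793, 2462931817595201, 4398717620252, 134238236, 4124]

def E : Emc where
  nv := 18
  A := 0x30342e2831352233201f2b1d163223182517272f132d2c102a1c0e091926242907062111121e051b0d04010a1a0015140f0c02030b08
  ln := [5, 6, 5, 5, 6, 5]
  par := [(0, 0), (0, 1), (0, 2), (0, 3), (0, 4), (2, 3)]
  cod := [[3, 0, 6, 18, 15], [8, 1, 9, 24, 36, 21], [20, 7, 22, 39, 33], [17, 19, 34, 45, 30], [5, 16, 31, 42, 27, 12], [35, 40, 48, 51, 47]]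
  rep := [(0, 1), (0, 0), (0, 2), (1, 2), (4, 5), (0, 4), (0, 3), (1, 5), (1, 3), (4, 4), (3, 4), (2, 4), (1, 4), (2, 3), (4, 3), (3, 3), (5, 2), (5, 3)]
  stp := [(0, 0, 0, 0, 0), (0, 0, 1, 0, 0), (0, 0, 2, 0, 0), (0, 0, 3, 0, 0), (0, 0, 4, 0, 0), (1, 1, 0, 0, 1), (2, 1, 1, 0, 1), (0, 1, 2, 0, 0), (0, 1, 3, 0, 0), (0, 1, 4, 0, 0), (0, 1, 5, 0, 0), (1, 2, 0, 0, 2), (2, 2, 1, 0, 2), (3, 2, 2, 1, 5), (0, 2, 3, 0, 0), (0, 2, 4, 0, 0), (1, 3, 0, 0, 3), (2, 3, 1, 0, 3), (3, 3, 2, 2, 4), (0, 3, 3, 0, 0), (0, 3, 4, 0, 0), (1, 4, 0, 0, 4), (2, 4, 1, 0, 4), (3, 4, 2, 3, 4), (0, 4, 3, 0, 0), (0, 4, 4, 0, 0), (0, 4, 5, 0, 0), (1, 5, 0, 2, 3), (2, 5, 1, 2, 3), (0, 5, 2, 0, 0), (0, 5, 3, 0, 0), (4, 5, 4, 3, 2)]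
  prs := [(0, 0, 1, 1, 0, 0, 0, 0), (0, 0, 2, 2, 0, 0, 0, 0), (0, 1, 2, 5, 1, 0, 0, 0), (0, 0, 3, 3, 0, 0, 0, 0), (1, 1, 3, 2, 1, 4, 5, 1), (0, 2, 3, 4, 1, 0, 0, 0), (0, 0, 4, 4, 0, 0, 0, 0), (1, 1, 4, 0, 1, 4, 0, 0), (1, 2, 4, 3, 1, 4, 4, 1), (0, 3, 4, 4, 1, 0, 0, 0), (1, 0, 5, 3, 0, 2, 3, 4), (1, 1, 5, 2, 1, 3, 5, 0), (0, 2, 5, 3, 0, 0, 0, 0), (0, 3, 5, 2, 4, 0, 0, 0), (1, 4, 5, 3, 4, 2, 1, 4)]
  exc := []

theorem c_emb : E.check = true := by decide +kernel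

theorem c_wf : wfA X.nv X.A X.legs = true := by decide +kernel

theorem c_a1 : alln (fun q => Nat.beq (fld X.A1 q) (cond (Nat.beq (fld X.A q) q) 0 (Nat.succ (fld X.A q)))) (Nat.mul 3 X.nv)
    = true := by decide +kernel

theorem c_bad : badT X.legs false false X.R = true := by decide +kernel

theorem c_rc : ringc X.nv X.A X.legs = true := by decide +kernel

theorem c_rj : ringj X.nv X.A X.legs X.pj = true := by decide +kernel

theorem c_main : Fk.dfs X.nv X.phi0 X.A1 X.legs [] (len X.legs) 0 (.l X.R) 0 0 0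
    (Fk.mkT X.A1 X.nv X.legs X.legs true (Fk.gn X.A1 X.nv 0 0 [])) X.ones true true = true := by decide +kernel

theorem c_trip : Fk.tripS (Nat.sub (len X.legs) 1) (Fk.ta X.ones) (Fk.tb X.ones) = true := by decide +kernel

theorem ok : X.Ok := ⟨c_wf, c_a1, c_bad, c_rc, c_rj, c_main, c_trip⟩

end Pool.Agent.UH.V6556x5
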