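import Pool.Agent.UH.Fk

set_option autoImplicit false
set_option maxRecDepth 100000
set_option maxHeartbeats 0

namespace Pool.Agent.UH.V6565x5

def X : Fk.CertF where
  nv := 18
  A := 0x30342e28313522332c2d2b20163223182517272f132a1d101f1c0e091926242907062111121e051b0d04010a1a0015140f0c02030b08
  A1 := 0x31002f29003623342d2e00211733241900182830142b1e1120000f0a0027252a08072212131f061c000502001b011615100d03040c09
  legs := [(10, 10935), (25, 3645), (37, 1215), (49, 405), (52, 135), (43, 45), (28, 15), (13, 5)]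
  R := 0x3000000000000001c0002c0000000000000000c02c0b030000000b5816b00000000000000000000000000000000000000000000000000000000000000000000000000000000000000000000000000000000000000000000000000000000000000000000000000000000000000000000000000000000000000000000000000000000000000000000000000000000000000000000000000000000000000000000000000000000000000000000000000000000000000000000000000000000000000000000000000000000003800000000000003e0583e02e4000000000000f8060001d9000009340d9000000000d00000000000000f0320403a400000000000000000000000000000000000e83a0481bd480e0002e0682e3c017bd00000000000000280804828000000118123004010020c36e0a80003006077020add200000097c123025c9825e980132f2002808000000000000000000000000000000000000000000000000000000000000000000000000000000000000000000000000000000000000000000000000000000000000000000000000000000000000000000000000000000000000000000000000000000000000000000000000000000000000000000000000000000000000000000000000000000000000000000000000000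0000000000000000000000000000000000000000000000000000000000000000000000a8120d80fa0000000000002a0581c006c00001430694000000002600000000000001e0702e0f9c0000000000000000000000000000000000200183c05a6a080000480e0b0d40621a00000000000003008814035400000e905aa000360c003a18280002e01805480359200000013404120219e0ec36005a84583205800000000000000000000000000000000000000000000000000000000000000000000000000000000000000000000000000000000000000000502203807c000002c00fc8140100a00cb2020000e822034ac0d1d400000065c1ef01dfd037ad0004e01e0080e0000000000000000000000000000000000000017603460a6940e16a005f1e08040980000000000011b360010140003e068340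
  phi0 := 32
  ones := (.n (.n (.n (.n (.n (.n (.l []) (.n (.n (.l []) (.l [8])) (.l []))) (.l [])) (.n (.n (.l []) (.n (.n (.l [16]) (.l [])) (.n (.l []) (.l [2])))) (.n (.l []) (.n (.n (.l []) (.l [14])) (.l []))))) (.n (.n (.n (.l []) (.n (.n (.l [10]) (.l [])) (.n (.l []) (.l [29])))) (.n (.l []) (.n (.n (.l []) (.l [4])) (.l [])))) (.n (.n (.n (.n (.l [8]) (.l [])) (.n (.l []) (.l [9]))) (.n (.n (.l []) (.l [20])) (.n (.l [0]) (.l [])))) (.n (.n (.n (.l []) (.l [6])) (.l [])) (.n (.n (.l [17, 23]) (.l [])) (.n (.l []) (.l [16, 20]))))))) (.n (.l []) (.n (.n (.n (.l []) (.n (.n (.l []) (.l [11])) (.n (.l [16]) (.l [])))) (.n (.n (.n (.l []) (.l [12])) (.l [])) (.n (.n (.l [31]) (.l [])) (.n (.l []) (.l [0, 16]))))) (.n (.n (.n (.l []) (.n (.l [9]) (.l []))) (.n (.n (.l [27]) (.l [])) (.n (.l []) (.l [15, 25])))) (.n (.l []) (.n (.n (.l []) (.l [11, 30])) (.n (.l [13, 29]) (.l [])))))))) (.n (.n (.n (.n (.n (.n (.n (.l []) (.l [18])) (.l [])) (.n (.n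 (.l [10]) (.l [])) (.n (.l []) (.l [14, 25])))) (.n (.l []) (.n (.n (.l []) (.l [25])) (.l [])))) (.n (.n (.n (.l []) (.n (.l []) (.l [4]))) (.n (.n (.l []) (.l [21])) (.n (.l [7]) (.l [])))) (.n (.n (.n (.l []) (.l [16])) (.l [])) (.n (.n (.l [19]) (.l [])) (.n (.l []) (.l [3, 27])))))) (.n (.n (.n (.l []) (.n (.l []) (.n (.l [13]) (.l [])))) (.n (.n (.n (.l []) (.l [9])) (.l [])) (.n (.n (.l [21]) (.l [])) (.n (.l []) (.l [7, 23]))))) (.n (.n (.n (.l []) (.n (.l [1]) (.l []))) (.n (.l []) (.n (.l []) (.l [18])))) (.n (.l []) (.n (.n (.l []) (.l [1])) (.n (.l [13, 26]) (.l []))))))) (.n (.n (.n (.n (.l []) (.n (.n (.l []) (.l [29])) (.n (.l [3]) (.l [])))) (.n (.n (.n (.l []) (.l [28])) (.l [])) (.n (.n (.l [20]) (.l [])) (.n (.l []) (.l [1, 25]))))) (.n (.n (.n (.l []) (.n (.l [23]) (.l []))) (.n (.n (.l [3]) (.l [])) (.n (.l []) (.l [9, 23])))) (.n (.l []) (.n (.n (.l []) (.l [0, 29])) (.n (.l [10, 19]) (.l [])))))) (.n (.n (.n (.n (.n (.l []) (.l [21]))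 (.l [])) (.n (.n (.l [4, 12]) (.l [])) (.n (.l []) (.l [1, 6, 19, 27])))) (.n (.l []) (.n (.n (.l []) (.l [6, 27])) (.l [])))) (.n (.n (.n (.n (.l [7]) (.l [])) (.n (.l []) (.l [26, 29]))) (.n (.n (.l []) (.l [1, 16])) (.n (.l [2, 20]) (.l [])))) (.n (.n (.n (.l []) (.l [8, 12])) (.l [])) (.n (.n (.l [0, 23, 27]) (.l [])) (.n (.l []) (.l [6, 10, 13, 14, 18, 22, 26])))))))))
  pj := [2050, 67111426, 68729962881, 1129198448017793, 2462931817595201, 4403415318572, 134238236, 4124]

def E : Emc where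
  nv := 18
  A := 0x30342e28313522332c2d2b20163223182517272f132a1d101f1c0e091926242907062111121e051b0d04010a1a0015140f0c02030b08
  ln := [5, 6, 5, 6, 5, 5]
  par := [(0, 0), (0, 1), (0, 2), (0, 3), (0, 4), (2, 3)]
  cod := [[3, 0, 6, 18, 15], [8, 1, 9, 24, 36, 21], [20, 7, 22, 39, 33], [17, 19, 34, 45, 42, 30], [5, 16, 31, 27, 12], [35, 40, 48, 51, 47]]
  rep := [(0, 1), (0, 0), (0, 2), (1, 2), (4, 4), (0, 4), (0, 3), (1, 5), (1, 3), (4, 3), (3, 5), (2, 4), (1, 4), (2, 3), (3, 4), (3, 3), (5, 2), (5, 3)]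
  stp := [(0, 0, 0, 0, 0), (0, 0, 1, 0, 0), (0, 0, 2, 0, 0), (0, 0, 3, 0, 0), (0, 0, 4, 0, 0), (1, 1, 0, 0, 1), (2, 1, 1, 0, 1), (0, 1, 2, 0, 0), (0, 1, 3, 0, 0), (0, 1, 4, 0, 0), (0, 1, 5, 0, 0), (1, 2, 0, 0, 2), (2, 2, 1, 0, 2), (3, 2, 2, 1, 5), (0, 2, 3, 0, 0), (0, 2, 4, 0, 0), (1, 3, 0, 0, 3), (2, 3, 1, 0, 3), (3, 3, 2, 2, 4), (0, 3, 3, 0, 0), (0, 3, 4, 0, 0), (0, 3, 5, 0, 0), (1, 4, 0, 0, 4), (2, 4, 1, 0, 4), (3, 4, 2, 3, 5), (0, 4, 3, 0, 0), (0, 4, 4, 0, 0), (1, 5, 0, 2, 3), (2, 5, 1, 2, 3), (0, 5, 2, 0, 0), (0, 5, 3, 0, 0), (4, 5, 4, 3, 2)]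
  prs := [(0, 0, 1, 1, 0, 0, 0, 0), (0, 0, 2, 2, 0, 0, 0, 0), (0, 1, 2, 5, 1, 0, 0, 0), (0, 0, 3, 3, 0, 0, 0, 0), (1, 1, 3, 2, 1, 4, 5, 1), (0, 2, 3, 4, 1, 0, 0, 0), (0, 0, 4, 4, 0, 0, 0, 0), (1, 1, 4, 0, 1, 4, 0, 0), (1, 2, 4, 3, 1, 5, 4, 1), (0, 3, 4, 5, 1, 0, 0, 0), (1, 0, 5, 3, 0, 2, 3, 4), (1, 1, 5, 2, 1, 3, 5, 0), (0, 2, 5, 3, 0, 0, 0, 0), (0, 3, 5, 2, 4, 0, 0, 0), (1, 4, 5, 3, 5, 2, 1, 4)]
  exc := []

theorem c_emb : E.check = true := by decide +kernel

theorem c_wf : wfA X.nv X.A X.legs = true := by decide +kernel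

theorem c_a1 : alln (fun q => Nat.beq (fld X.A1 q) (cond (Nat.beq (fld X.A q) q) 0 (Nat.succ (fld X.A q)))) (Nat.mul 3 X.nv)
    = true := by decide +kernel

theorem c_bad : badT X.legs false false X.R = true := by decide +kernel

theorem c_rc : ringc X.nv X.A X.legs = true := by decide +kernel

theorem c_rj : ringj X.nv X.A X.legs X.pj = true := by decide +kernel

theorem c_main : Fk.dfs X.nv X.phi0 X.A1 X.legs [] (len X.legs) 0 (.l X.R) 0 0 0
    (Fk.mkT X.A1 X.nv X.legs X.legs true (Fk.gn X.A1 X.nv 0 0 [])) X.ones true true = true := by decide +kernel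

theorem c_trip : Fk.tripS (Nat.sub (len X.legs) 1) (Fk.ta X.ones) (Fk.tb X.ones) = true := by decide +kernel

theorem ok : X.Ok := ⟨c_wf, c_a1, c_bad, c_rc, c_rj, c_main, c_trip⟩

end Pool.Agent.UH.V6565x5
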