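import Pool.Agent.UH.Fk

set_option autoImplicit false
set_option maxRecDepth 100000
set_option maxHeartbeats 0

namespace Pool.Agent.UH.V6655x5

def X : Fk.CertF where
  nv := 18
  A := 0x2e343233312b27352322302016282f1825172d2c132a1d101f1c0e091926242907062111121e051b0d04010a1a0015140f0c02030b08
  A1 := 0x2f003334002c2836242331211700301900182e2d142b1e1120000f0a0027252a08072212131f061c000502001b011615100d03040c09
  legs := [(10, 10935), (25, 3645), (37, 1215), (40, 405), (52, 135), (49, 45), (28, 15), (13, 5)]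
  R := 0x18000000000000012088000a00000000000000882208020000000ad014a80000000000000000000000000000000000000000000000000000000000000000000000000000000000000000000000000000000000000000000000000000000000000000000000000000000000000000000000000000000000000000000000000000000000000000000000000000000000000000000000000000000000000000000000000000000000000000000000000000000000000000000000000000000000000000000000000000000001e000000000000018018180200000000000000b012078380000001140e1000000000600000000000000881c03822000000000000000000000000000000000000e016018360f820000240f8210103b3580000000000000401c0b03c000000c2402c008028040182a008000c82a0026a05cb00000008fc1f882151028570012303006030000000000000000000000000000000000000000000000000000000000000000000000000000000000000000000000000000000000000000000000000000000000000000000000000000000000000000000000000000000000000000000000000000000000000000000000000000000000000000000000000000000000000000000000000000000000000000000000000000000000000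000000000000000000000000000000000000000000000070000000000000040200302a00000000000000a0d0340200000039a047800000000220000000000000180e81806480000000000000000000000000000000000140402a01c90088000983406068028dc00000000000001c0502a0648000017100b20881c0300f2402400002040278781e2100000027d02260153802a140002c9f00e0f000000000000000000000000000000000000000000000000000000000000000000000000000000000000000000000000000000000000000000902a0301be000005a80138300800a07f9a058000e826013f409cc8000000efc16181db2801ca000c51840b0380000000000000000000000000000000000000012b0152020b00fe90007f0cc02c050000000000001a244a0d80a0002c0982c0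
  phi0 := 32
  ones := (.n (.n (.n (.n (.n (.n (.l []) (.n (.l []) (.n (.l [25]) (.l [])))) (.l [])) (.n (.n (.n (.n (.l []) (.l [28])) (.n (.l [19]) (.l []))) (.n (.n (.l [29]) (.l [])) (.n (.l []) (.l [15])))) (.n (.l []) (.n (.n (.l []) (.l [1])) (.n (.l [20, 22]) (.l [])))))) (.n (.l []) (.n (.n (.l []) (.n (.n (.l []) (.l [28])) (.n (.l [23]) (.l [])))) (.l [])))) (.n (.l []) (.n (.n (.n (.n (.l []) (.n (.l []) (.l [24]))) (.n (.l []) (.n (.l [21]) (.l [])))) (.n (.n (.l []) (.n (.l [18]) (.l []))) (.n (.n (.l [17]) (.l [])) (.n (.l []) (.l [1, 29]))))) (.n (.n (.n (.n (.l []) (.l [24])) (.n (.l [20]) (.l []))) (.n (.n (.l [3]) (.l [])) (.n (.l []) (.l [3])))) (.n (.l []) (.n (.n (.l []) (.l [1, 5])) (.n (.l [14, 19, 23]) (.l [])))))))) (.n (.n (.n (.n (.n (.n (.n (.l []) (.l [24])) (.l [])) (.l [])) (.n (.l []) (.n (.n (.l []) (.l [9])) (.n (.l [18]) (.l []))))) (.n (.n (.n (.n (.l [15]) (.l [])) (.n (.l []) (.l [15]))) (.n (.n (.l []) (.l [14])) (.n (.l [20])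 (.l [])))) (.n (.n (.n (.l []) (.l [2])) (.n (.l [16]) (.l []))) (.n (.n (.l [4]) (.l [])) (.n (.l []) (.l [4])))))) (.n (.n (.n (.n (.l []) (.n (.l []) (.l [3]))) (.n (.n (.l []) (.l [15])) (.l []))) (.n (.n (.l []) (.n (.l [11]) (.l []))) (.n (.n (.l [19]) (.l [])) (.n (.l []) (.l [13, 31]))))) (.n (.n (.n (.n (.l []) (.l [19])) (.l [])) (.l [])) (.n (.l []) (.n (.n (.l []) (.l [2])) (.n (.l [2, 27]) (.l []))))))) (.n (.n (.n (.n (.n (.l []) (.n (.l []) (.l [9]))) (.n (.l []) (.n (.l [1]) (.l [])))) (.n (.n (.l []) (.n (.l [21]) (.l []))) (.n (.n (.l [15]) (.l [])) (.n (.l []) (.l [17]))))) (.n (.n (.n (.n (.l []) (.l [9])) (.n (.l [29]) (.l []))) (.n (.n (.l [15]) (.l [])) (.n (.l []) (.l [15])))) (.n (.l []) (.n (.n (.l []) (.l [12, 21])) (.n (.l [3, 27]) (.l [])))))) (.n (.n (.n (.n (.n (.l []) (.l [28])) (.l [])) (.l [])) (.n (.l []) (.n (.n (.l []) (.l [13])) (.n (.l [19, 21]) (.l []))))) (.n (.n (.n (.n (.l [26]) (.l [])) (.n (.l []) (.l [8]))) (.n (.n (.l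 []) (.l [9, 28])) (.n (.l [15, 21]) (.l [])))) (.n (.n (.n (.l []) (.l [11])) (.n (.l [8, 28]) (.l []))) (.n (.n (.l [17]) (.l [])) (.n (.l []) (.l [3])))))))))
  pj := [2050, 67111426, 68729962881, 2199029547393, 9112795322253633, 307889027154241, 134238236, 4124]

def E : Emc where
  nv := 18
  A := 0x2e343233312b27352322302016282f1825172d2c132a1d101f1c0e091926242907062111121e051b0d04010a1a0015140f0c02030b08
  ln := [5, 6, 6, 5, 5, 5]
  par := [(0, 0), (0, 1), (0, 2), (0, 3), (0, 4), (2, 4)]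
  cod := [[3, 0, 6, 18, 15], [8, 1, 9, 24, 36, 21], [20, 7, 22, 39, 45, 33], [17, 19, 34, 42, 30], [5, 16, 31, 27, 12], [35, 46, 51, 48, 44]]
  rep := [(0, 1), (0, 0), (0, 2), (1, 2), (4, 4), (0, 4), (0, 3), (1, 5), (1, 3), (4, 3), (3, 4), (2, 5), (1, 4), (2, 3), (3, 3), (2, 4), (5, 3), (5, 2)]
  stp := [(0, 0, 0, 0, 0), (0, 0, 1, 0, 0), (0, 0, 2, 0, 0), (0, 0, 3, 0, 0), (0, 0, 4, 0, 0), (1, 1, 0, 0, 1), (2, 1, 1, 0, 1), (0, 1, 2, 0, 0), (0, 1, 3, 0, 0), (0, 1, 4, 0, 0), (0, 1, 5, 0, 0), (1, 2, 0, 0, 2), (2, 2, 1, 0, 2), (3, 2, 2, 1, 5), (0, 2, 3, 0, 0), (0, 2, 4, 0, 0), (0, 2, 5, 0, 0), (1, 3, 0, 0, 3), (2, 3, 1, 0, 3), (3, 3, 2, 2, 5), (0, 3, 3, 0, 0), (0, 3, 4, 0, 0), (1, 4, 0, 0, 4), (2, 4, 1, 0, 4), (3, 4, 2, 3, 4), (0, 4, 3, 0, 0), (0, 4, 4, 0, 0), (1, 5, 0, 2, 4), (2, 5, 1, 2, 4), (0, 5, 2, 0, 0), (0, 5, 3, 0, 0), (4, 5, 4, 3, 2)]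
  prs := [(0, 0, 1, 1, 0, 0, 0, 0), (0, 0, 2, 2, 0, 0, 0, 0), (0, 1, 2, 5, 1, 0, 0, 0), (0, 0, 3, 3, 0, 0, 0, 0), (1, 1, 3, 2, 1, 5, 5, 1), (0, 2, 3, 5, 1, 0, 0, 0), (0, 0, 4, 4, 0, 0, 0, 0), (1, 1, 4, 0, 1, 4, 0, 0), (1, 2, 4, 3, 1, 4, 5, 1), (0, 3, 4, 4, 1, 0, 0, 0), (1, 0, 5, 3, 0, 2, 3, 4), (1, 1, 5, 2, 1, 4, 5, 0), (0, 2, 5, 4, 0, 0, 0, 0), (0, 3, 5, 2, 4, 0, 0, 0), (1, 4, 5, 3, 4, 2, 1, 4)]
  exc := []

theorem c_emb : E.check = true := by decide +kernel

theorem c_wf : wfA X.nv X.A X.legs = true := by decide +kernel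

theorem c_a1 : alln (fun q => Nat.beq (fld X.A1 q) (cond (Nat.beq (fld X.A q) q) 0 (Nat.succ (fld X.A q)))) (Nat.mul 3 X.nv)
    = true := by decide +kernel

theorem c_bad : badT X.legs false false X.R = true := by decide +kernel

theorem c_rc : ringc X.nv X.A X.legs = true := by decide +kernel

theorem c_rj : ringj X.nv X.A X.legs X.pj = true := by decide +kernel

theorem c_main : Fk.dfs X.nv X.phi0 X.A1 X.legs [] (len X.legs) 0 (.l X.R) 0 0 0
    (Fk.mkT X.A1 X.nv X.legs X.legs true (Fk.gn X.A1 X.nv 0 0 [])) X.ones true true = true := by decide +kernel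

theorem c_trip : Fk.tripS (Nat.sub (len X.legs) 1) (Fk.ta X.ones) (Fk.tb X.ones) = true := by decide +kernel

theorem ok : X.Ok := ⟨c_wf, c_a1, c_bad, c_rc, c_rj, c_main, c_trip⟩

end Pool.Agent.UH.V6655x5
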